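import Mathlib

/-!
# Causal decomposition (MP_b57e2f_an, paper section 4.2)

Mathematics: helper10 (note 1581).  Self-contained.
-/

set_option autoImplicit false

namespace Pool.Agent.B57

open Set Filter Topology

namespace Causal

variable {X : Type*} [NormedAddCommGroup X] [NormedSpace ℝ X]

/-- Hahn-Banach: splitting a functional bounded by `D * max ‖x‖ (P x)` on a subspace. -/
theorem hb_split (V : Submodule ℝ X) (f : X →ₗ[ℝ] ℝ) (P : Seminorm ℝ X) {D : ℝ} (hD : 0 ≤ D)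
    (hf : ∀ x ∈ V, |f x| ≤ D * max ‖x‖ (P x)) :
    ∃ u h : X →ₗ[ℝ] ℝ, (∀ x, |u x| ≤ D * ‖x‖) ∧ (∀ x, |h x| ≤ D * P x) ∧
      ∀ x ∈ V, f x = u x + h x := by
  -- the diagonal embedding
  set ι : V →ₗ[ℝ] X × X := V.subtype.prod V.subtype with hι
  have hinj : Function.Injective ι := by
    intro a b hab
    have : (a : X) = b := congrArg Prod.fst hab
    exact Subtype.ext this
  set e := LinearEquiv.ofInjective ι hinj with he
  set F : (X × X) →ₗ.[ℝ] ℝ := ⟨LinearMap.range ι, (f.comp V.subtype).comp (e.symm : _ →ₗ[ℝ] V)⟩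
    with hF
  have hFv : ∀ v : V, ∀ h : ι v ∈ LinearMap.range ι, F ⟨ι v, h⟩ = f v := by
    intro v h
    have h1 : (⟨ι v, h⟩ : LinearMap.range ι) = e v := Subtype.ext rfl
    show f (V.subtype (e.symm ⟨ι v, h⟩)) = f v
    rw [h1, LinearEquiv.symm_apply_apply]
    rfl
  set N : X × X → ℝ := fun z => D * max ‖z.1‖ (P z.2) with hN
  have Nhom : ∀ c : ℝ, 0 < c → ∀ z, N (c • z) = c * N z := by
    intro c hc z
    simp only [hN, Prod.smul_fst, Prod.smul_snd, norm_smul, map_smul_eq_mul, Real.norm_eq_abs,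
      abs_of_pos hc]
    rw [← mul_max_of_nonneg _ _ hc.le]
    ring
  have Nadd : ∀ z w, N (z + w) ≤ N z + N w := by
    intro z w
    simp only [hN, Prod.fst_add, Prod.snd_add]
    rw [← mul_add]
    refine mul_le_mul_of_nonneg_left ?_ hD
    refine max_le ?_ ?_
    · exact (norm_add_le _ _).trans (add_le_add (le_max_left _ _) (le_max_left _ _))
    · exact (map_add_le_add P _ _).trans (add_le_add (le_max_right _ _) (le_max_right _ _))
  obtain ⟨g, hg1, hg2⟩ := exists_extension_of_le_sublinear F N Nhom Nadd (by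
    rintro ⟨z, v, rfl⟩
    rw [hFv v]
    exact (le_abs_self _).trans (hf v v.2))
  have hneg : ∀ z, |g z| ≤ N z := by
    intro z
    rw [abs_le]
    refine ⟨?_, hg2 z⟩
    have h1 := hg2 (-z)
    rw [map_neg] at h1
    have h2 : N (-z) = N z := by simp [hN]
    rw [h2] at h1
    linarith
  refine ⟨g.comp (LinearMap.inl ℝ X X), g.comp (LinearMap.inr ℝ X X), ?_, ?_, ?_⟩
  · intro x
    refine (hneg _).trans ?_
    simp only [hN, LinearMap.inl_apply, map_zero]
    rw [max_eq_left (norm_nonneg x)]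
  · intro x
    refine (hneg _).trans ?_
    simp only [hN, LinearMap.inr_apply, norm_zero]
    rw [max_eq_right (apply_nonneg P x)]
  · intro x hx
    have h1 := hg1 ⟨ι ⟨x, hx⟩, ⟨_, rfl⟩⟩
    rw [hFv ⟨x, hx⟩] at h1
    rw [← h1]
    simp only [LinearMap.comp_apply, LinearMap.inl_apply, LinearMap.inr_apply, ← map_add]
    congr 1
    simp [hι]

/-- Hahn-Banach: extension dominated by a seminorm. -/
theorem hb_ext (V : Submodule ℝ X) (e : X →ₗ[ℝ] ℝ) (q : Seminorm ℝ X) {c : ℝ} (hc : 0 ≤ c)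
    (he : ∀ x ∈ V, |e x| ≤ c * q x) :
    ∃ g : X →ₗ[ℝ] ℝ, (∀ x ∈ V, g x = e x) ∧ ∀ x, |g x| ≤ c * q x := by
  obtain ⟨g, hg1, hg2⟩ := exists_extension_of_le_sublinear
    (⟨V, e.comp V.subtype⟩ : X →ₗ.[ℝ] ℝ) (fun x => c * q x)
    (fun a ha x => by rw [map_smul_eq_mul, Real.norm_eq_abs, abs_of_pos ha]; ring)
    (fun x y => by
      rw [← mul_add]
      exact mul_le_mul_of_nonneg_left (map_add_le_add q _ _) hc)
    (fun x => (le_abs_self _).trans (he x x.2))
  refine ⟨g, fun x hx => hg1 ⟨x, hx⟩, fun x => ?_⟩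
  rw [abs_le]
  refine ⟨?_, hg2 x⟩
  have h1 := hg2 (-x)
  rw [map_neg, map_neg_eq_map] at h1
  linarith

/-- the inf-convolution `inf_w (‖x - w‖ + P w)` -/
noncomputable def qq (P : Seminorm ℝ X) : Seminorm ℝ X := P ⊓ normSeminorm ℝ X

theorem qq_bdd (P : Seminorm ℝ X) (x : X) :
    BddBelow (range fun w : X => P w + (normSeminorm ℝ X) (x - w)) :=
  ⟨0, by rintro _ ⟨w, rfl⟩; positivity⟩

theorem qq_le (P : Seminorm ℝ X) (x w : X) : qq P x ≤ P w + ‖x - w‖ := by
  unfold qq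
  rw [Seminorm.inf_apply]
  exact ciInf_le (qq_bdd P x) w

theorem qq_le_norm (P : Seminorm ℝ X) (x : X) : qq P x ≤ ‖x‖ := by
  have := qq_le P x 0
  simpa using this

theorem qq_le_P (P : Seminorm ℝ X) (x : X) : qq P x ≤ P x := by
  have := qq_le P x x
  simpa using this

theorem le_qq (P : Seminorm ℝ X) (x : X) {c : ℝ} (h : ∀ w, c ≤ P w + ‖x - w‖) : c ≤ qq P x := by
  unfold qq
  rw [Seminorm.inf_apply]
  exact le_ciInf h

theorem exists_lt_of_qq_lt (P : Seminorm ℝ X) (x : X) {c : ℝ} (h : qq P x < c) :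
    ∃ w, P w + ‖x - w‖ < c := by
  unfold qq at h
  rw [Seminorm.inf_apply] at h
  exact exists_lt_of_ciInf_lt h

theorem qq_continuous (P : Seminorm ℝ X) : Continuous (qq P) :=
  Seminorm.continuous_of_le (q := normSeminorm ℝ X) continuous_norm fun x => qq_le_norm P x

theorem P_continuous (P : Seminorm ℝ X) {cP : ℝ} (hPc : ∀ x, P x ≤ cP * ‖x‖) : Continuous P := by
  have hcP : ∀ x, P x ≤ |cP| * ‖x‖ := fun x =>
    (hPc x).trans (mul_le_mul_of_nonneg_right (le_abs_self _) (norm_nonneg _))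
  refine (LipschitzWith.of_dist_le_mul (K := |cP|.toNNReal) fun x y => ?_).continuous
  rw [Real.coe_toNNReal _ (abs_nonneg cP), dist_eq_norm, dist_eq_norm]
  exact (P.norm_sub_map_le_sub x y).trans (hcP _)

/-- multiples of a seminorm -/
theorem exists_smul (P : Seminorm ℝ X) {A : ℝ} (hA : 0 ≤ A) :
    ∃ Q : Seminorm ℝ X, ∀ x, Q x = A * P x := by
  refine ⟨A.toNNReal • P, fun x => ?_⟩
  show A.toNNReal • P x = A * P x
  rw [NNReal.smul_def, Real.coe_toNNReal _ hA, smul_eq_mul]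

/-- compactness: on `F n` the infimum is attained up to a factor 2 in `F v`. -/
theorem exists_nu_aux (F : ℕ → Submodule ℝ X) (hF : Monotone F)
    (hfd : ∀ n, FiniteDimensional ℝ (F n)) (hdense : Dense {x : X | ∃ n, x ∈ F n})
    (P : Seminorm ℝ X) {cP : ℝ} (hPc : ∀ x, P x ≤ cP * ‖x‖)
    (hPn : ∀ n, ∀ x ∈ F n, P x = 0 → x = 0) (n : ℕ) :
    ∃ v, ∀ x ∈ F n, ∃ w ∈ F v, P w + ‖x - w‖ ≤ 2 * qq P x := by
  have hcP : ∀ x, P x ≤ |cP| * ‖x‖ := fun x =>
    (hPc x).trans (mul_le_mul_of_nonneg_right (le_abs_self _) (norm_nonneg _))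
  have hPcont : Continuous P := P_continuous P hPc
  -- the sphere
  have := hfd n
  have : ProperSpace (F n) := FiniteDimensional.proper ℝ (F n)
  set S : Set X := (fun y : F n => (y : X)) '' Metric.sphere (0 : F n) 1 with hS
  have hScomp : IsCompact S := (isCompact_sphere (0 : F n) 1).image continuous_subtype_val
  have hSmem : ∀ x ∈ S, x ∈ F n ∧ ‖x‖ = 1 := by
    rintro _ ⟨y, hy, rfl⟩
    exact ⟨y.2, by simpa using hy⟩
  -- positivity of q
  have hpos : ∀ x ∈ S, 0 < qq P x := by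
    intro x hx
    rcases (apply_nonneg (qq P) x).eq_or_lt with h0 | h0
    · exfalso
      have h1 : P x ≤ 0 := by
        refine le_of_forall_pos_le_add fun ε hε => ?_
        obtain ⟨w, hw⟩ := exists_lt_of_qq_lt P x (c := ε / (|cP| + 1)) (by
          rw [← h0]; positivity)
        have h2 : P x ≤ P w + |cP| * ‖x - w‖ := by
          calc P x = P (w + (x - w)) := by congr 1; abel
            _ ≤ P w + P (x - w) := map_add_le_add P _ _
            _ ≤ _ := by linarith [hcP (x - w)]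
        have h3 : P w + |cP| * ‖x - w‖ ≤ (|cP| + 1) * (P w + ‖x - w‖) := by
          have := apply_nonneg P w
          have := norm_nonneg (x - w)
          have := abs_nonneg cP
          nlinarith
        have h4 : (|cP| + 1) * (P w + ‖x - w‖) ≤ (|cP| + 1) * (ε / (|cP| + 1)) :=
          mul_le_mul_of_nonneg_left hw.le (by positivity)
        have h5 : (|cP| + 1) * (ε / (|cP| + 1)) = ε := by
          have : |cP| + 1 ≠ 0 := by positivity
          field_simp
        linarith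
      have h2 := hPn n x (hSmem x hx).1 (le_antisymm h1 (apply_nonneg P x))
      have h3 := (hSmem x hx).2
      rw [h2, norm_zero] at h3
      exact zero_ne_one h3
    · exact h0
  -- the open cover
  set O : ℕ → Set X := fun v => {y | ∃ w ∈ F v, P w + ‖y - w‖ < 2 * qq P y} with hO
  have hOo : ∀ v, IsOpen (O v) := by
    intro v
    have : O v = ⋃ w ∈ F v, {y | P w + ‖y - w‖ < 2 * qq P y} := by
      ext y
      simp [hO]
    rw [this]
    refine isOpen_biUnion fun w _ => ?_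
    exact isOpen_lt (continuous_const.add (continuous_id.sub continuous_const).norm)
      (continuous_const.mul (qq_continuous P))
  have hOm : Directed (· ⊆ ·) O := by
    refine directed_of_isDirected_le fun a b hab y hy => ?_
    obtain ⟨w, hw, hy⟩ := hy
    exact ⟨w, hF hab hw, hy⟩
  have hcov : S ⊆ ⋃ v, O v := by
    intro x hx
    have hq := hpos x hx
    obtain ⟨w, hw⟩ := exists_lt_of_qq_lt P x (c := 2 * qq P x) (by linarith)
    -- density
    have hop : IsOpen {w : X | P w + ‖x - w‖ < 2 * qq P x} :=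
      isOpen_lt (hPcont.add (continuous_const.sub continuous_id).norm) continuous_const
    obtain ⟨w', hw', k, hk⟩ := hdense.inter_open_nonempty _ hop ⟨w, hw⟩
    exact mem_iUnion.2 ⟨k, w', hk, hw'⟩
  obtain ⟨v, hv⟩ := hScomp.elim_directed_cover O hOo hcov hOm
  refine ⟨v, fun x hx => ?_⟩
  rcases eq_or_ne x 0 with rfl | hx0
  · exact ⟨0, (F v).zero_mem, by simp⟩
  · have hn : 0 < ‖x‖ := norm_pos_iff.2 hx0
    have hy : ‖x‖⁻¹ • x ∈ S := by
      refine ⟨⟨‖x‖⁻¹ • x, (F n).smul_mem _ hx⟩, ?_, rfl⟩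
      rw [mem_sphere_zero_iff_norm]
      show ‖‖x‖⁻¹ • x‖ = 1
      rw [norm_smul, norm_inv, norm_norm]
      field_simp
    obtain ⟨w, hw, hlt⟩ := hv hy
    refine ⟨‖x‖ • w, (F v).smul_mem _ hw, ?_⟩
    have h1 : P (‖x‖ • w) = ‖x‖ * P w := by rw [map_smul_eq_mul, norm_norm]
    have h2 : ‖x - ‖x‖ • w‖ = ‖x‖ * ‖‖x‖⁻¹ • x - w‖ := by
      have : x - ‖x‖ • w = ‖x‖ • (‖x‖⁻¹ • x - w) := by
        rw [smul_sub, smul_smul, mul_inv_cancel₀ hn.ne', one_smul]
      rw [this, norm_smul, norm_norm]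
    have h3 : qq P (‖x‖⁻¹ • x) = ‖x‖⁻¹ * qq P x := by
      rw [map_smul_eq_mul, norm_inv, norm_norm]
    rw [h3] at hlt
    rw [h1, h2, ← mul_add]
    have h4 := mul_le_mul_of_nonneg_left hlt.le hn.le
    have h5 : ‖x‖ * (2 * (‖x‖⁻¹ * qq P x)) = 2 * qq P x := by
      field_simp
    linarith

theorem exists_nu (F : ℕ → Submodule ℝ X) (hF : Monotone F)
    (hfd : ∀ n, FiniteDimensional ℝ (F n)) (hdense : Dense {x : X | ∃ n, x ∈ F n})
    (P : Seminorm ℝ X) {cP : ℝ} (hPc : ∀ x, P x ≤ cP * ‖x‖)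
    (hPn : ∀ n, ∀ x ∈ F n, P x = 0 → x = 0) :
    ∃ ν : ℕ → ℕ, Monotone ν ∧ (∀ n, n < ν n) ∧
      ∀ n, ∀ x ∈ F n, ∃ w ∈ F (ν n), P w + ‖x - w‖ ≤ 2 * qq P x := by
  choose v hv using exists_nu_aux F hF hfd hdense P hPc hPn
  refine ⟨fun n => (∑ i ∈ Finset.range (n + 1), v i) + n + 1, ?_,
    fun n => by beta_reduce; omega, ?_⟩
  · refine monotone_nat_of_le_succ fun n => ?_
    rw [Finset.sum_range_succ _ (n + 1)]
    omega
  · intro n x hx
    obtain ⟨w, hw, h⟩ := hv n x hx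
    refine ⟨w, hF ?_ hw, h⟩
    have : v n ≤ ∑ i ∈ Finset.range (n + 1), v i :=
      Finset.single_le_sum (f := v) (fun _ _ => Nat.zero_le _) (Finset.mem_range.2 (by omega))
    beta_reduce
    omega

/-- data of the construction for one functional -/
theorem core (F : ℕ → Submodule ℝ X) (hF : Monotone F)
    (hdense : Dense {x : X | ∃ n, x ∈ F n})
    (P : Seminorm ℝ X) {cP : ℝ} (hPc : ∀ x, P x ≤ cP * ‖x‖)
    (ν : ℕ → ℕ) (hνlt : ∀ n, n < ν n)
    (hν : ∀ n, ∀ x ∈ F n, ∃ w ∈ F (ν n), P w + ‖x - w‖ ≤ 2 * qq P x) (m : ℕ)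
    (f : X →L[ℝ] ℝ) (D : ℕ → ℝ) (_hDm : Monotone D) (hD0 : ∀ n, m < n → 0 ≤ D n)
    (hD1 : ∀ n, D n ≤ 1) (hf : ∀ n, m < n → ∀ x ∈ F n, |f x| ≤ D n * max ‖x‖ (P x)) :
    ∃ u : X →L[ℝ] ℝ, (∀ x, |f x - u x| ≤ 7 * P x) ∧
      ∀ n, m ≤ n → ∀ x ∈ F n, |u x| ≤ 14 * D (ν n) * ‖x‖ := by
  classical
  have hPcont : Continuous P := P_continuous P hPc
  -- (A)
  have hA : ∀ j : ℕ, ∃ u : X →ₗ[ℝ] ℝ, (∀ x, |u x| ≤ (1 / 2) ^ j * ‖x‖) ∧
      ∀ n, m < n → D n ≤ (1 / 2) ^ j → ∀ x ∈ F n, |f x - u x| ≤ (1 / 2) ^ j * P x := by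
    intro j
    by_cases hne : ∃ n, m < n ∧ D n ≤ (1 / 2) ^ j
    · have : Nonempty {n // m < n ∧ D n ≤ (1 / 2) ^ j} := by
        obtain ⟨n, hn⟩ := hne
        exact ⟨⟨n, hn⟩⟩
      have hdir : Directed (· ≤ ·) fun n : {n // m < n ∧ D n ≤ (1 / 2) ^ j} => F n := by
        refine directed_of_isDirected_le fun a b hab => hF hab
      obtain ⟨u, h, hu, hh, hs⟩ := hb_split
        (⨆ n : {n // m < n ∧ D n ≤ (1 / 2) ^ j}, F n) (f : X →ₗ[ℝ] ℝ) P
        (D := (1 / 2) ^ j) (by positivity) (by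
          intro x hx
          rw [Submodule.mem_iSup_of_directed _ hdir] at hx
          obtain ⟨n, hn⟩ := hx
          refine (hf n n.2.1 x hn).trans ?_
          exact mul_le_mul_of_nonneg_right n.2.2 ((norm_nonneg x).trans (le_max_left _ _)))
      refine ⟨u, hu, fun n hn hDn x hx => ?_⟩
      have h1 := hs x (by
        rw [Submodule.mem_iSup_of_directed _ hdir]
        exact ⟨⟨n, hn, hDn⟩, hx⟩)
      have h2 : f x - u x = h x := by
        have : (f : X →ₗ[ℝ] ℝ) x = f x := rfl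
        rw [← this, h1]; ring
      rw [h2]
      exact hh x
    · refine ⟨0, fun x => by simp, fun n hn hDn => ?_⟩
      exact absurd ⟨n, hn, hDn⟩ hne
  choose u hu1 hu2 using hA
  -- (B)
  have hB : ∀ j : ℕ, ∃ e : X →ₗ[ℝ] ℝ, (∀ x, |e x| ≤ 3 * (1 / 2) ^ j * qq P x) ∧
      ∀ n, m ≤ n → D (ν n) ≤ (1 / 2) ^ (j + 1) → ∀ x ∈ F n, e x = u j x - u (j + 1) x := by
    intro j
    have hbd : ∀ n, m ≤ n → D (ν n) ≤ (1 / 2) ^ (j + 1) → ∀ x ∈ F n,
        |(u j - u (j + 1)) x| ≤ 3 * (1 / 2) ^ j * qq P x := by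
      intro n hn hDn x hx
      obtain ⟨w, hw, hle⟩ := hν n x hx
      have hmν : m < ν n := lt_of_le_of_lt hn (hνlt n)
      have hDn' : D (ν n) ≤ (1 / 2) ^ j := hDn.trans (by
        rw [pow_succ]
        have : (0 : ℝ) ≤ (1 / 2) ^ j := by positivity
        linarith)
      have h1 : |(u j - u (j + 1)) (x - w)| ≤ 3 / 2 * (1 / 2) ^ j * ‖x - w‖ := by
        rw [LinearMap.sub_apply]
        have a := hu1 j (x - w)
        have b := hu1 (j + 1) (x - w)
        rw [pow_succ] at b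
        calc _ ≤ |u j (x - w)| + |u (j + 1) (x - w)| := abs_sub _ _
          _ ≤ _ := by linarith
      have h2 : |(u j - u (j + 1)) w| ≤ 3 / 2 * (1 / 2) ^ j * P w := by
        rw [LinearMap.sub_apply]
        have a := hu2 j (ν n) hmν hDn' w hw
        have b := hu2 (j + 1) (ν n) hmν hDn w hw
        rw [pow_succ] at b
        have e1 : u j w - u (j + 1) w = (f w - u (j + 1) w) - (f w - u j w) := by ring
        rw [e1]
        calc _ ≤ |f w - u (j + 1) w| + |f w - u j w| := abs_sub _ _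
          _ ≤ _ := by linarith
      have h3 : (u j - u (j + 1)) x = (u j - u (j + 1)) (x - w) + (u j - u (j + 1)) w := by
        rw [← map_add]
        congr 1
        abel
      rw [h3]
      have hp : (0 : ℝ) ≤ (1 / 2) ^ j := by positivity
      calc _ ≤ |(u j - u (j + 1)) (x - w)| + |(u j - u (j + 1)) w| := abs_add_le _ _
        _ ≤ 3 / 2 * (1 / 2) ^ j * (P w + ‖x - w‖) := by linarith
        _ ≤ 3 / 2 * (1 / 2) ^ j * (2 * qq P x) :=
            mul_le_mul_of_nonneg_left hle (by positivity)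
        _ = _ := by ring
    by_cases hne : ∃ n, m ≤ n ∧ D (ν n) ≤ (1 / 2) ^ (j + 1)
    · have : Nonempty {n // m ≤ n ∧ D (ν n) ≤ (1 / 2) ^ (j + 1)} := by
        obtain ⟨n, hn⟩ := hne
        exact ⟨⟨n, hn⟩⟩
      have hdir : Directed (· ≤ ·)
          fun n : {n // m ≤ n ∧ D (ν n) ≤ (1 / 2) ^ (j + 1)} => F n := by
        refine directed_of_isDirected_le fun a b hab => hF hab
      obtain ⟨e, he1, he2⟩ := hb_ext
        (⨆ n : {n // m ≤ n ∧ D (ν n) ≤ (1 / 2) ^ (j + 1)}, F n) (u j - u (j + 1)) (qq P)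
        (c := 3 * (1 / 2) ^ j) (by positivity) (by
          intro x hx
          rw [Submodule.mem_iSup_of_directed _ hdir] at hx
          obtain ⟨n, hn⟩ := hx
          exact hbd n n.2.1 n.2.2 x hn)
      refine ⟨e, he2, fun n hn hDn x hx => ?_⟩
      rw [he1 x (by
        rw [Submodule.mem_iSup_of_directed _ hdir]
        exact ⟨⟨n, hn, hDn⟩, hx⟩), LinearMap.sub_apply]
    · refine ⟨0, fun x => by
        simp only [LinearMap.zero_apply, abs_zero]
        have := apply_nonneg (qq P) x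
        positivity, fun n hn hDn => ?_⟩
      exact absurd ⟨n, hn, hDn⟩ hne
  choose e he1 he2 using hB
  -- the supremum of D
  set s : ℝ := ⨆ n, D n with hs
  have hbdd : BddAbove (range D) := ⟨1, by rintro _ ⟨n, rfl⟩; exact hD1 n⟩
  have hDs : ∀ n, D n ≤ s := fun n => le_ciSup hbdd n
  have hs0 : 0 ≤ s := (hD0 (m + 1) (by omega)).trans (hDs _)
  have hs1 : s ≤ 1 := ciSup_le hD1
  have hext : ∀ (g : X →L[ℝ] ℝ) (c : ℝ), (∀ n, m < n → ∀ x ∈ F n, |g x| ≤ c * P x) →
      ∀ x, |g x| ≤ c * P x := by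
    intro g c hg x
    have hcl : IsClosed {x : X | |g x| ≤ c * P x} :=
      isClosed_le g.continuous.abs (continuous_const.mul hPcont)
    have hsub : {x : X | ∃ n, x ∈ F n} ⊆ {x : X | |g x| ≤ c * P x} := by
      rintro y ⟨n, hn⟩
      exact hg (max n (m + 1)) (lt_of_lt_of_le (by omega) (le_max_right _ _)) y
        (hF (le_max_left _ _) hn)
    exact closure_minimal hsub hcl (hdense x)
  rcases hs0.eq_or_lt with h0 | hspos
  · -- f = 0
    have hf0 : ∀ x, f x = 0 := by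
      have hcl : IsClosed {x : X | f x = 0} := isClosed_eq f.continuous continuous_const
      have hsub : {x : X | ∃ n, x ∈ F n} ⊆ {x : X | f x = 0} := by
        rintro y ⟨n, hn⟩
        have h1 := hf (max n (m + 1)) (lt_of_lt_of_le (by omega) (le_max_right _ _)) y
          (hF (le_max_left _ _) hn)
        have h2 : D (max n (m + 1)) = 0 :=
          le_antisymm ((hDs _).trans h0.ge) (hD0 _ (lt_of_lt_of_le (by omega) (le_max_right _ _)))
        rw [h2, zero_mul] at h1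
        exact abs_nonpos_iff.1 h1
      exact fun x => closure_minimal hsub hcl (hdense x)
    refine ⟨0, fun x => ?_, fun n hn x _ => ?_⟩
    · rw [hf0 x]
      have := apply_nonneg P x
      simp
    · have h1 := hD0 (ν n) (lt_of_le_of_lt hn (hνlt n))
      have := norm_nonneg x
      simp
      positivity
  · obtain ⟨J, hJ1, hJ2⟩ := exists_nat_pow_near_of_lt_one hspos hs1 (y := (1 / 2 : ℝ))
      (by norm_num) (by norm_num)
    -- continuous versions
    have hclm : ∀ (g : X →ₗ[ℝ] ℝ) (c : ℝ), (∀ x, |g x| ≤ c * ‖x‖) →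
        ∃ G : X →L[ℝ] ℝ, (∀ x, G x = g x) ∧ ‖G‖ ≤ |c| := by
      intro g c hg
      refine ⟨g.mkContinuous |c| fun x => ?_, fun x => rfl, ?_⟩
      · rw [Real.norm_eq_abs]
        exact (hg x).trans (mul_le_mul_of_nonneg_right (le_abs_self _) (norm_nonneg _))
      · exact LinearMap.mkContinuous_norm_le _ (abs_nonneg _) _
    have hE : ∀ j, ∃ G : X →L[ℝ] ℝ, (∀ x, G x = e j x) ∧ ‖G‖ ≤ |3 * (1 / 2) ^ j| := fun j =>
      hclm (e j) (3 * (1 / 2) ^ j) fun x => (he1 j x).trans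
        (mul_le_mul_of_nonneg_left (qq_le_norm P x) (by positivity))
    choose E hEe hEn using hE
    obtain ⟨U, hU, -⟩ := hclm (u J) _ (hu1 J)
    have hEn' : ∀ j, ‖E j‖ ≤ 3 * (1 / 2) ^ j := fun j => by
      have := hEn j
      rwa [abs_of_nonneg (by positivity)] at this
    have hsumE : Summable fun k : ℕ => E (J + k) := by
      refine Summable.of_norm_bounded (g := fun k : ℕ => 3 * (1 / 2 : ℝ) ^ J * (1 / 2) ^ k)
        ((summable_geometric_of_lt_one (by norm_num) (by norm_num)).mul_left _) fun k => ?_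
      refine (hEn' _).trans (le_of_eq ?_)
      rw [pow_add]; ring
    have hev : ∀ x, (∑' k : ℕ, E (J + k)) x = ∑' k : ℕ, e (J + k) x := by
      intro x
      have h1 := (ContinuousLinearMap.apply ℝ ℝ x).map_tsum hsumE
      simp only [ContinuousLinearMap.apply_apply] at h1
      rw [h1]
      exact tsum_congr fun k => hEe _ x
    have hsx : ∀ (x : X) (i : ℕ) (c : ℝ), (∀ j, |e (i + j) x| ≤ 3 * (1 / 2) ^ (i + j) * c) →
        Summable (fun k : ℕ => e (i + k) x) ∧
          |∑' k : ℕ, e (i + k) x| ≤ 6 * (1 / 2) ^ i * c := by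
      intro x i c hc
      have hg : HasSum (fun k : ℕ => 3 * (1 / 2 : ℝ) ^ i * c * (1 / 2) ^ k)
          (3 * (1 / 2) ^ i * c * 2) := hasSum_geometric_two.mul_left _
      have hb : ∀ k : ℕ, ‖e (i + k) x‖ ≤ 3 * (1 / 2 : ℝ) ^ i * c * (1 / 2) ^ k := fun k => by
        rw [Real.norm_eq_abs]
        refine (hc k).trans (le_of_eq ?_)
        rw [pow_add]; ring
      refine ⟨Summable.of_norm_bounded hg.summable hb, ?_⟩
      have := tsum_of_norm_bounded hg hb
      rw [Real.norm_eq_abs] at this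
      linarith
    refine ⟨U - ∑' k : ℕ, E (J + k), ?_, ?_⟩
    · -- distance to f
      intro x
      have h1 : |(f - U) x| ≤ (1 / 2) ^ J * P x := by
        refine hext (f - U) _ (fun n hn y hy => ?_) x
        have := hu2 J n hn ((hDs n).trans hJ2) y hy
        simpa [hU] using this
      have h2 : |∑' k : ℕ, e (J + k) x| ≤ 6 * (1 / 2) ^ J * P x :=
        (hsx x J (P x) fun j => (he1 _ x).trans
          (mul_le_mul_of_nonneg_left (qq_le_P P x) (by positivity))).2
      have h3 : f x - (U - ∑' k : ℕ, E (J + k)) x = (f - U) x + ∑' k : ℕ, e (J + k) x := by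
        rw [← hev x]
        simp only [_root_.sub_apply]
        ring
      rw [h3]
      have h4 : (1 / 2 : ℝ) ^ J ≤ 1 := pow_le_one₀ (by norm_num) (by norm_num)
      have h5 := apply_nonneg P x
      calc _ ≤ |(f - U) x| + |∑' k : ℕ, e (J + k) x| := abs_add_le _ _
        _ ≤ 7 * (1 / 2) ^ J * P x := by linarith
        _ ≤ 7 * P x := by nlinarith
    · -- size on F n
      intro n hn x hx
      -- key: for every i with D (ν n) ≤ 2^-(J+i)
      have key : ∀ t : ℕ, D (ν n) ≤ (1 / 2) ^ (J + t) →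
          |(U - ∑' k : ℕ, E (J + k)) x| ≤ 7 * (1 / 2) ^ (J + t) * ‖x‖ := by
        intro t ht
        have hq : ∀ j, |e j x| ≤ 3 * (1 / 2) ^ j * ‖x‖ := fun j => (he1 _ x).trans
          (mul_le_mul_of_nonneg_left (qq_le_norm P x) (by positivity))
        have hsum0 := (hsx x J ‖x‖ fun j => hq _).1
        have h1 : ∑' k : ℕ, e (J + k) x =
            ∑ k ∈ Finset.range t, e (J + k) x + ∑' k : ℕ, e (J + t + k) x := by
          rw [← hsum0.sum_add_tsum_nat_add t]
          congr 1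
          refine tsum_congr fun k => ?_
          congr 2
          omega
        have h2 : ∑ k ∈ Finset.range t, e (J + k) x = u J x - u (J + t) x := by
          have h3 : ∀ k ∈ Finset.range t, e (J + k) x = u (J + k) x - u (J + (k + 1)) x := by
            intro k hk
            rw [Finset.mem_range] at hk
            refine he2 (J + k) n hn (ht.trans ?_) x hx
            exact pow_le_pow_of_le_one (by norm_num) (by norm_num) (by omega)
          rw [Finset.sum_congr rfl h3, Finset.sum_range_sub' (fun k => u (J + k) x)]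
          simp
        have h3 : (U - ∑' k : ℕ, E (J + k)) x = u (J + t) x - ∑' k : ℕ, e (J + t + k) x := by
          rw [_root_.sub_apply, hev x, h1, h2, hU]
          ring
        rw [h3]
        have h4 := hu1 (J + t) x
        have h5 := (hsx x (J + t) ‖x‖ fun j => hq _).2
        calc _ ≤ |u (J + t) x| + |∑' k : ℕ, e (J + t + k) x| := abs_sub _ _
          _ ≤ _ := by linarith
      have hDν := hD0 (ν n) (lt_of_le_of_lt hn (hνlt n))
      rcases hDν.eq_or_lt with h0 | hpos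
      · -- D = 0
        have h1 : ∀ t : ℕ, |(U - ∑' k : ℕ, E (J + k)) x| ≤ 7 * (1 / 2) ^ (J + t) * ‖x‖ :=
          fun t => key t (by rw [← h0]; positivity)
        have h2 : Tendsto (fun t : ℕ => 7 * (1 / 2 : ℝ) ^ (J + t) * ‖x‖) atTop (𝓝 0) := by
          have h3 : Tendsto (fun t : ℕ => (1 / 2 : ℝ) ^ t) atTop (𝓝 0) :=
            tendsto_pow_atTop_nhds_zero_of_lt_one (by norm_num) (by norm_num)
          have h4 := h3.const_mul (7 * (1 / 2 : ℝ) ^ J * ‖x‖)
          rw [mul_zero] at h4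
          refine h4.congr fun t => ?_
          rw [pow_add]; ring
        have h3 := ge_of_tendsto' h2 h1
        rw [← h0]
        simpa using h3
      · obtain ⟨i, hi1, hi2⟩ := exists_nat_pow_near_of_lt_one hpos (hD1 _) (y := (1 / 2 : ℝ))
          (by norm_num) (by norm_num)
        have hJi : J ≤ i := by
          by_contra hcon
          push Not at hcon
          have h1 : (1 / 2 : ℝ) ^ J ≤ (1 / 2) ^ (i + 1) :=
            pow_le_pow_of_le_one (by norm_num) (by norm_num) hcon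
          linarith [hDs (ν n)]
        have h1 := key (i - J) (by rwa [Nat.add_sub_cancel' hJi])
        rw [Nat.add_sub_cancel' hJi] at h1
        refine h1.trans (mul_le_mul_of_nonneg_right ?_ (norm_nonneg x))
        rw [pow_succ] at hi1
        linarith

/-- CAUSAL DECOMPOSITION (paper 4.2). -/
theorem causal (F : ℕ → Submodule ℝ X) (hF : Monotone F)
    (hfd : ∀ n, FiniteDimensional ℝ (F n)) (hdense : Dense {x : X | ∃ n, x ∈ F n})
    (P : Seminorm ℝ X) {cP : ℝ} (hPc : ∀ x, P x ≤ cP * ‖x‖)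
    (hPn : ∀ n, ∀ x ∈ F n, P x = 0 → x = 0) :
    ∃ ν : ℕ → ℕ, Monotone ν ∧ (∀ n, n < ν n) ∧
      ∀ (m : ℕ) (A : ℝ), 0 ≤ A → (∀ x ∈ F m, ∀ w, 9 / 10 * ‖x‖ ≤ ‖x - w‖ + A * P w) →
      ∀ (f : X →L[ℝ] ℝ) (D : ℕ → ℝ), Monotone D → (∀ n, m < n → 0 ≤ D n) → (∀ n, D n ≤ 1) →
        (∀ n, m < n → ∀ x ∈ F n, |f x| ≤ D n * max ‖x‖ (P x)) →
        ∃ u : X →L[ℝ] ℝ, (∀ x ∈ F m, u x = 0) ∧ (∀ x, |f x - u x| ≤ (7 + 16 * A) * P x) ∧
          ∀ n, m ≤ n → ∀ x ∈ F n, |u x| ≤ 30 * D (ν n) * ‖x‖ := by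
  obtain ⟨ν, hν1, hν2, hν3⟩ := exists_nu F hF hfd hdense P hPc hPn
  refine ⟨ν, hν1, hν2, ?_⟩
  intro m A hA0 hA f D hDm hD0 hD1 hf
  obtain ⟨u, hu1, hu2⟩ := core F hF hdense P hPc ν hν2 hν3 m f D hDm hD0 hD1 hf
  -- the correction
  obtain ⟨P', hQP⟩ := exists_smul P hA0
  set Q : Seminorm ℝ X := qq P' with hQ
  have hQm : ∀ x ∈ F m, 9 / 10 * ‖x‖ ≤ Q x := by
    intro x hx
    refine le_qq _ _ fun w => ?_
    rw [hQP]
    linarith [hA x hx w]
  have hDm' := hD0 (ν m) (hν2 m)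
  obtain ⟨g, hg1, hg2⟩ := hb_ext (F m) (u : X →ₗ[ℝ] ℝ) Q (c := 14 * D (ν m) * (10 / 9))
    (by positivity) (by
      intro x hx
      have h1 := hu2 m le_rfl x hx
      have h2 := hQm x hx
      have h3 : ‖x‖ ≤ 10 / 9 * Q x := by linarith
      calc |(u : X →ₗ[ℝ] ℝ) x| ≤ 14 * D (ν m) * ‖x‖ := h1
        _ ≤ 14 * D (ν m) * (10 / 9 * Q x) := mul_le_mul_of_nonneg_left h3 (by positivity)
        _ = _ := by ring)
  have hgn : ∀ x, |g x| ≤ 16 * D (ν m) * ‖x‖ := fun x => by
    refine (hg2 x).trans ?_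
    have h1 : Q x ≤ ‖x‖ := qq_le_norm _ _
    have h2 := norm_nonneg x
    calc 14 * D (ν m) * (10 / 9) * Q x ≤ 14 * D (ν m) * (10 / 9) * ‖x‖ :=
          mul_le_mul_of_nonneg_left h1 (by positivity)
      _ ≤ 16 * D (ν m) * ‖x‖ := by
          have := mul_nonneg hDm' h2
          nlinarith
  have hgP : ∀ x, |g x| ≤ 16 * A * P x := fun x => by
    refine (hg2 x).trans ?_
    have h1 : Q x ≤ A * P x := by
      have := qq_le_P P' x
      rwa [hQP] at this
    have h2 := hD1 (ν m)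
    have h3 := apply_nonneg P x
    have h4 : 0 ≤ A * P x := mul_nonneg hA0 h3
    calc 14 * D (ν m) * (10 / 9) * Q x ≤ 14 * D (ν m) * (10 / 9) * (A * P x) :=
          mul_le_mul_of_nonneg_left h1 (by positivity)
      _ ≤ 16 * A * P x := by nlinarith
  set G : X →L[ℝ] ℝ := g.mkContinuous (16 * D (ν m)) (fun x => hgn x) with hG
  have hGg : ∀ x, G x = g x := fun x => rfl
  refine ⟨u - G, fun x hx => ?_, fun x => ?_, fun n hn x hx => ?_⟩
  · rw [_root_.sub_apply, hGg, hg1 x hx]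
    exact sub_self _
  · rw [_root_.sub_apply, hGg]
    have e1 : f x - (u x - g x) = (f x - u x) + g x := by ring
    rw [e1]
    calc _ ≤ |f x - u x| + |g x| := abs_add_le _ _
      _ ≤ _ := by linarith [hu1 x, hgP x]
  · rw [_root_.sub_apply, hGg]
    have h1 := hu2 n hn x hx
    have h2 := hgn x
    have h3 : D (ν m) ≤ D (ν n) := hDm (hν1 hn)
    have h4 : D (ν m) * ‖x‖ ≤ D (ν n) * ‖x‖ := mul_le_mul_of_nonneg_right h3 (norm_nonneg x)
    calc _ ≤ |u x| + |g x| := abs_sub _ _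
      _ ≤ _ := by linarith

end Causal

end Pool.Agent.B57
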