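import Mathlib

/-!
# The criterion 1.2 of the proof of MP_b57e2f_an

* `B57.convex_comb`: a bounded sequence of nonnegative continuous functions on a compact
  Hausdorff space tending to zero pointwise has convex combinations uniformly small.
* `B57.criterion`: if limits of the coordinates along ultrafilters are, up to a factor
  `q < 1`, given by summable combinations of the coordinates, then every functional is
  a summable combination of the coordinates.
-/

set_option autoImplicit false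

open Set Metric Filter Topology MeasureTheory
open scoped CompactlySupported

namespace B57

lemma convex_comb_hull {K : Type*} [TopologicalSpace K] [CompactSpace K] [T2Space K]
    (g : ℕ → C(K, ℝ)) (hg0 : ∀ N x, 0 ≤ g N x) {B : ℝ} (hB : ∀ N x, g N x ≤ B)
    (hlim : ∀ x, Tendsto (fun N => g N x) atTop (𝓝 0)) {ε : ℝ} (hε : 0 < ε) :
    ∃ p ∈ convexHull ℝ (Set.range g), ∀ x, p x ≤ ε := by
  by_contra hcon
  push Not at hcon
  set S : Set C(K, ℝ) := {f | ∀ x, f x < ε} with hSdef
  have hSo : IsOpen S := by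
    have h1 := ContinuousMap.isOpen_setOfPred_mapsTo (isCompact_univ (X := K)) (isOpen_Iio (a := ε))
    have h2 : S = {f : C(K, ℝ) | MapsTo f univ (Iio ε)} := by
      ext f
      simp [hSdef, MapsTo]
    rw [h2]
    exact h1
  have hSc : Convex ℝ S := by
    intro f hf f' hf' a b ha hb hab x
    show a * f x + b * f' x < ε
    have h1 := hf x
    have h2 := hf' x
    rcases ha.eq_or_lt with h | h
    · have hb1 : b = 1 := by linarith
      rw [← h, hb1]; linarith
    · nlinarith
  have hdisj : Disjoint S (convexHull ℝ (range g)) := by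
    refine Set.disjoint_left.2 fun f hf hf' => ?_
    obtain ⟨x, hx⟩ := hcon f hf'
    exact absurd (hf x) (not_lt.2 hx.le)
  obtain ⟨Λ, s, hS, hC⟩ := geometric_hahn_banach_open hSc hSo (convex_convexHull ℝ _) hdisj
  have hs0 : 0 < s := by
    have : (0 : C(K, ℝ)) ∈ S := fun x => by simpa using hε
    have := hS 0 this
    rwa [map_zero] at this
  have hpos : ∀ f : C(K, ℝ), (∀ x, 0 ≤ f x) → 0 ≤ Λ f := by
    intro f hf
    by_contra hneg
    push Not at hneg
    have hmem : ∀ t : ℝ, 0 ≤ t → (-t) • f ∈ S := by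
      intro t ht x
      show (-t) * f x < ε
      nlinarith [hf x, mul_nonneg ht (hf x)]
    have h1 := hS _ (hmem (s / (-Λ f)) (div_nonneg hs0.le (by linarith)))
    rw [map_smul, smul_eq_mul] at h1
    have h2 : -(s / (-Λ f)) * Λ f = s := by
      have : Λ f ≠ 0 := hneg.ne
      field_simp
    rw [h2] at h1
    exact lt_irrefl _ h1
  -- the representing measure
  let : MeasurableSpace K := borel K
  have : BorelSpace K := ⟨rfl⟩
  let L : C_c(K, ℝ) →ₚ[ℝ] ℝ := PositiveLinearMap.mk₀
    { toFun := fun f => Λ f.toContinuousMap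
      map_add' := fun f f' => by
        rw [← map_add]; rfl
      map_smul' := fun c f => by
        rw [RingHom.id_apply, ← map_smul]; rfl }
    (fun f hf => hpos _ fun x => hf x)
  set μ := RealRMK.rieszMeasure L with hμ
  have hint : ∀ N, ∫ x, g N x ∂μ = Λ (g N) := by
    intro N
    have := RealRMK.integral_rieszMeasure L (CompactlySupportedContinuousMap.continuousMapEquiv (g N))
    exact this
  have hfin : IsFiniteMeasure μ := inferInstance
  have hdom : Tendsto (fun N => ∫ x, g N x ∂μ) atTop (𝓝 (∫ _x : K, (0 : ℝ) ∂μ)) := by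
    refine tendsto_integral_of_dominated_convergence (fun _ => B) ?_ (integrable_const B) ?_ ?_
    · intro N
      exact (g N).continuous.aestronglyMeasurable
    · intro N
      refine Eventually.of_forall fun x => ?_
      rw [Real.norm_of_nonneg (hg0 N x)]
      exact hB N x
    · exact Eventually.of_forall fun x => hlim x
  rw [integral_zero] at hdom
  have hge : ∀ N, s ≤ ∫ x, g N x ∂μ := by
    intro N
    rw [hint]
    exact hC _ (subset_convexHull ℝ _ (mem_range_self N))
  exact absurd (ge_of_tendsto' hdom hge) (not_le.2 hs0)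

/-- Convex combination lemma, with explicit weights. -/
lemma convex_comb {K : Type*} [TopologicalSpace K] [CompactSpace K] [T2Space K]
    (g : ℕ → C(K, ℝ)) (hg0 : ∀ N x, 0 ≤ g N x) {B : ℝ} (hB : ∀ N x, g N x ≤ B)
    (hlim : ∀ x, Tendsto (fun N => g N x) atTop (𝓝 0)) {ε : ℝ} (hε : 0 < ε) :
    ∃ (ι : Type) (t : Finset ι) (w : ι → ℝ) (N : ι → ℕ), (∀ i ∈ t, 0 ≤ w i) ∧
      ∑ i ∈ t, w i = 1 ∧ ∀ x, ∑ i ∈ t, w i * g (N i) x ≤ ε := by
  classical
  obtain ⟨p, hp, hpx⟩ := convex_comb_hull g hg0 hB hlim hε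
  rw [convexHull_eq] at hp
  obtain ⟨ι, t, w, z, hw0, hw1, hz, hzp⟩ := hp
  have hz' : ∀ i, ∃ n, i ∈ t → g n = z i := by
    intro i
    by_cases hi : i ∈ t
    · obtain ⟨n, hn⟩ := hz i hi
      exact ⟨n, fun _ => hn⟩
    · exact ⟨0, fun h => absurd h hi⟩
  choose N hN using hz'
  refine ⟨ι, t, w, N, hw0, hw1, fun x => ?_⟩
  rw [Finset.centerMass_eq_of_sum_1 _ _ hw1] at hzp
  have h1 := hpx x
  rw [← hzp, ContinuousMap.sum_apply] at h1
  refine le_trans (le_of_eq ?_) h1
  refine Finset.sum_congr rfl fun i hi => ?_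
  rw [hN i hi]
  rfl

/-- Summable combinations of a bounded family in a Banach space. -/
lemma summable_smul_of_bdd {I Z : Type*} [NormedAddCommGroup Z] [NormedSpace ℝ Z]
    [CompleteSpace Z] {e : I → Z} (he : ∀ n, ‖e n‖ ≤ 1) {c : I → ℝ}
    (hc : Summable fun n => |c n|) : Summable fun n => c n • e n := by
  refine Summable.of_norm_bounded hc fun n => ?_
  rw [norm_smul, Real.norm_eq_abs]
  exact mul_le_of_le_one_right (abs_nonneg _) (he n)

/-- **Criterion 1.2.** -/
theorem criterion {I Y : Type*} [NormedAddCommGroup Y] [NormedSpace ℝ Y]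
    (rk : I → ℕ) (hrk : ∀ N, {n | rk n ≤ N}.Finite)
    (e : I → (Y →L[ℝ] ℝ)) (he : ∀ n, ‖e n‖ ≤ 1)
    (hnorm : ∀ (y : Y) (B : ℝ), 0 ≤ B → (∀ n, |e n y| ≤ B) → ‖y‖ ≤ B)
    (κ : ℝ) (hlow : ∀ c : I → ℝ, (Summable fun n => |c n|) →
      ∑' n, |c n| ≤ κ * ‖∑' n, c n • e n‖)
    (q : ℝ) (hq0 : 0 ≤ q) (hq : q < 1)
    (hU : ∀ U : Ultrafilter I, ∃ c : I → ℝ, (Summable fun n => |c n|) ∧
      ∀ (y : Y) (a : ℝ), Tendsto (fun n => e n y) U (𝓝 a) →
        |a - ∑' n, c n * e n y| ≤ q * ‖y‖) :
    ∀ φ : Y →L[ℝ] ℝ, ∃ c : I → ℝ, (Summable fun n => |c n|) ∧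
      ∀ y, φ y = ∑' n, c n * e n y := by
  classical
  -- the combination map
  have hsum : ∀ c : I → ℝ, (Summable fun n => |c n|) → Summable fun n => c n • e n :=
    fun c hc => summable_smul_of_bdd he hc
  have happ : ∀ c : I → ℝ, (Summable fun n => |c n|) → ∀ y,
      (∑' n, c n • e n) y = ∑' n, c n * e n y := by
    intro c hc y
    have := (ContinuousLinearMap.apply ℝ ℝ y).map_tsum (hsum c hc)
    simpa using this
  have hsumapp : ∀ c : I → ℝ, (Summable fun n => |c n|) → ∀ y, Summable fun n => c n * e n y := by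
    intro c hc y
    have h1 := (hsum c hc).mapL (ContinuousLinearMap.apply ℝ ℝ y)
    simpa using h1
  -- the subspace `Z`
  let T : lp (fun _ : I => ℝ) 1 →ₗ[ℝ] (Y →L[ℝ] ℝ) :=
    { toFun := fun c => ∑' n, c n • e n
      map_add' := by
        intro c d
        have hc : Summable fun n => |c n| := by
          have := (lp.memℓp c).summable (by norm_num)
          simpa using this
        have hd : Summable fun n => |d n| := by
          have := (lp.memℓp d).summable (by norm_num)
          simpa using this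
        rw [← (hsum c hc).tsum_add (hsum d hd)]
        refine tsum_congr fun n => ?_
        rw [← add_smul]; rfl
      map_smul' := by
        intro a c
        have hc : Summable fun n => |c n| := by
          have := (lp.memℓp c).summable (by norm_num)
          simpa using this
        rw [RingHom.id_apply, ← (hsum c hc).tsum_const_smul]
        refine tsum_congr fun n => ?_
        rw [smul_smul]; rfl }
  have hTsum : ∀ c : lp (fun _ : I => ℝ) 1, Summable fun n => |c n| := by
    intro c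
    have := (lp.memℓp c).summable (by norm_num)
    simpa using this
  have hnormlp : ∀ c : lp (fun _ : I => ℝ) 1, ‖c‖ = ∑' n, |c n| := by
    intro c
    have := lp.norm_eq_tsum_rpow (p := 1) (by norm_num) c
    simpa using this
  have hTlow : ∀ c, ‖c‖ ≤ κ * ‖T c‖ := by
    intro c
    rw [hnormlp]
    exact hlow c (hTsum c)
  have hTbd : ∀ c, ‖T c‖ ≤ 1 * ‖c‖ := by
    intro c
    rw [hnormlp, one_mul]
    show ‖∑' n, c n • e n‖ ≤ _
    refine tsum_of_norm_bounded (hTsum c).hasSum fun n => ?_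
    rw [norm_smul, Real.norm_eq_abs]
    exact mul_le_of_le_one_right (abs_nonneg _) (he n)
  set Tc : lp (fun _ : I => ℝ) 1 →L[ℝ] (Y →L[ℝ] ℝ) := T.mkContinuous 1 hTbd with hTc
  have hκ : AntilipschitzWith (Real.toNNReal κ) Tc := by
    refine ContinuousLinearMap.antilipschitz_of_bound Tc fun c => ?_
    refine (hTlow c).trans ?_
    gcongr
    · exact Real.le_coe_toNNReal κ
    · exact le_rfl
  have hclosed : IsClosed ((LinearMap.range Tc.toLinearMap : Submodule ℝ (Y →L[ℝ] ℝ)) :
      Set (Y →L[ℝ] ℝ)) := by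
    have := hκ.isClosed_range Tc.uniformContinuous
    exact this
  set Z : Submodule ℝ (Y →L[ℝ] ℝ) := LinearMap.range Tc.toLinearMap with hZ
  have hemem : ∀ n, e n ∈ Z := by
    intro n
    refine ⟨lp.single 1 n (1 : ℝ), ?_⟩
    show ∑' m, (lp.single 1 n (1 : ℝ) : lp (fun _ : I => ℝ) 1) m • e m = e n
    rw [tsum_eq_single n]
    · simp
    · intro m hm
      simp [hm]
  by_contra hcon
  push Not at hcon
  obtain ⟨φ, hφ⟩ := hcon
  have hφZ : φ ∉ Z := by
    rintro ⟨c, hc⟩
    obtain ⟨y, hy⟩ := hφ c (hTsum c)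
    apply hy
    rw [← happ c (hTsum c), ← hc]
    rfl
  -- Riesz
  obtain ⟨r, hqr, hr1⟩ := exists_between hq
  obtain ⟨θ, hqθ, hθr⟩ := exists_between hqr
  obtain ⟨x₀, hx₀Z, hx₀⟩ := riesz_lemma hclosed ⟨φ, hφZ⟩ hr1
  have hx₀0 : x₀ ≠ 0 := fun h => hx₀Z (h ▸ Z.zero_mem)
  have hx₀n : 0 < ‖x₀‖ := norm_pos_iff.2 hx₀0
  set φ0 : Y →L[ℝ] ℝ := ‖x₀‖⁻¹ • x₀ with hφ0
  have hφ0n : ‖φ0‖ = 1 := by
    rw [hφ0, norm_smul, norm_inv, norm_norm, inv_mul_cancel₀ hx₀n.ne']
  have hdist : ∀ z ∈ Z, r ≤ ‖φ0 - z‖ := by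
    intro z hz
    have h1 := hx₀ (‖x₀‖ • z) (Z.smul_mem _ hz)
    have h2 : x₀ - ‖x₀‖ • z = ‖x₀‖ • (φ0 - z) := by
      rw [hφ0, smul_sub, smul_smul, mul_inv_cancel₀ hx₀n.ne', one_smul]
    rw [h2, norm_smul, norm_norm, mul_comm] at h1
    exact le_of_mul_le_mul_left h1 hx₀n
  -- the vectors `y N`
  have hyN : ∀ N : ℕ, ∃ y : Y, ‖y‖ ≤ 1 ∧ (∀ n, rk n ≤ N → e n y = 0) ∧ θ < φ0 y := by
    intro N
    set YN : Submodule ℝ Y := ⨅ n : {n // rk n ≤ N}, LinearMap.ker (e n.1).toLinearMap with hYN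
    obtain ⟨ψ, hψ, hψn⟩ := exists_extension_norm_eq YN (φ0.comp YN.subtypeL)
    have hfinite : Finite {n // rk n ≤ N} := hrk N
    have hsp : (φ0 - ψ).toLinearMap ∈ Submodule.span ℝ
        (Set.range fun n : {n // rk n ≤ N} => (e n.1).toLinearMap) := by
      refine mem_span_of_iInf_ker_le_ker ?_
      intro y hy
      rw [LinearMap.mem_ker]
      have := hψ ⟨y, hy⟩
      show φ0 y - ψ y = 0
      rw [this]
      exact sub_self _
    have hmemZ : φ0 - ψ ∈ Z := by
      -- transfer membership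
      have hle : Submodule.span ℝ (Set.range fun n : {n // rk n ≤ N} => (e n.1).toLinearMap) ≤
          Z.map (ContinuousLinearMap.coeLM ℝ : (Y →L[ℝ] ℝ) →ₗ[ℝ] (Y →ₗ[ℝ] ℝ)) := by
        rw [Submodule.span_le]
        rintro _ ⟨n, rfl⟩
        exact ⟨e n.1, hemem n.1, rfl⟩
      obtain ⟨z, hz, hz'⟩ := hle hsp
      have : z = φ0 - ψ := by
        apply ContinuousLinearMap.coe_injective
        exact hz'
      rwa [← this]
    have hψr : r ≤ ‖ψ‖ := by
      have := hdist _ hmemZ
      rwa [sub_sub_cancel] at this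
    rw [hψn] at hψr
    by_contra hno
    push Not at hno
    have hbound : ‖φ0.comp YN.subtypeL‖ ≤ θ := by
      refine ContinuousLinearMap.opNorm_le_bound _ (hq0.trans hqθ.le) ?_
      have hval : ∀ y : YN, φ0 y ≤ θ * ‖(y : Y)‖ := by
        intro y
        rcases eq_or_ne (y : Y) 0 with h0 | h0
        · rw [h0]; simp
        · have hyn : 0 < ‖(y : Y)‖ := norm_pos_iff.2 h0
          have hker : ∀ n, rk n ≤ N → e n (‖(y : Y)‖⁻¹ • (y : Y)) = 0 := by
            intro n hn
            have h2 : e n (y : Y) = 0 := (Submodule.mem_iInf _).1 y.2 ⟨n, hn⟩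
            rw [map_smul, h2, smul_zero]
          have h1 := hno (‖(y : Y)‖⁻¹ • (y : Y))
            (by rw [norm_smul, norm_inv, norm_norm, inv_mul_cancel₀ hyn.ne']) hker
          rw [map_smul, smul_eq_mul, inv_mul_le_iff₀ hyn] at h1
          linarith
      intro y
      rw [Real.norm_eq_abs, abs_le]
      constructor
      · have := hval (-y)
        simp only [Submodule.coe_neg, map_neg, norm_neg] at this
        show -(θ * ‖(y : Y)‖) ≤ φ0 y
        linarith
      · exact hval y
    linarith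
  choose y hy1 hy0 hyθ using hyN
  -- bounded by one
  have hey : ∀ N n, |e n (y N)| ≤ 1 := by
    intro N n
    have := (e n).le_of_opNorm_le (he n) (y N)
    rw [one_mul] at this
    exact this.trans (hy1 N)
  have hIcc : ∀ N n, e n (y N) ∈ Icc (-1 : ℝ) 1 := fun N n => abs_le.1 (hey N n)
  let F : ℕ → I → Icc (-1 : ℝ) 1 := fun N n => ⟨e n (y N), hIcc N n⟩
  let E : ℕ → Ultrafilter I → Icc (-1 : ℝ) 1 := fun N => Ultrafilter.extend (F N)
  have hEc : ∀ N, Continuous (E N) := fun N => continuous_ultrafilter_extend (F N)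
  have hElim : ∀ N (U : Ultrafilter I), Tendsto (fun n => e n (y N)) U (𝓝 ((E N U : Icc (-1 : ℝ) 1) : ℝ)) := by
    intro N U
    have h1 : ((U.map (F N) : Ultrafilter (Icc (-1 : ℝ) 1)) : Filter (Icc (-1 : ℝ) 1)) ≤ 𝓝 (E N U) :=
      ultrafilter_extend_eq_iff.1 rfl
    have h2 : Tendsto (F N) U (𝓝 (E N U)) := h1
    exact (continuous_subtype_val.tendsto _).comp h2
  let g : ℕ → C(Ultrafilter I, ℝ) := fun N =>
    ⟨fun U => max (|((E N U : Icc (-1 : ℝ) 1) : ℝ)| - q) 0, by
      have := hEc N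
      fun_prop⟩
  have hgv : ∀ N U, g N U = max (|((E N U : Icc (-1 : ℝ) 1) : ℝ)| - q) 0 := fun N U => rfl
  have hg0 : ∀ N U, 0 ≤ g N U := fun N U => le_max_right _ _
  have hg1 : ∀ N U, g N U ≤ 1 := by
    intro N U
    rw [hgv]
    refine max_le ?_ zero_le_one
    have : |((E N U : Icc (-1 : ℝ) 1) : ℝ)| ≤ 1 := abs_le.2 (E N U).2
    linarith
  have hglim : ∀ U, Tendsto (fun N => g N U) atTop (𝓝 0) := by
    intro U
    obtain ⟨c, hc, hcU⟩ := hU U
    have hlim0 : Tendsto (fun N => ∑' n, c n * e n (y N)) atTop (𝓝 (∑' _n : I, (0 : ℝ))) := by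
      refine tendsto_tsum_of_dominated_convergence hc ?_ ?_
      · intro n
        refine tendsto_const_nhds.congr' ?_
        filter_upwards [eventually_ge_atTop (rk n)] with N hN
        rw [hy0 N n hN, mul_zero]
      · refine Eventually.of_forall fun N n => ?_
        rw [Real.norm_eq_abs, abs_mul]
        exact mul_le_of_le_one_right (abs_nonneg _) (hey N n)
    rw [tsum_zero] at hlim0
    have hlim1 : Tendsto (fun N => |∑' n, c n * e n (y N)|) atTop (𝓝 0) := by
      simpa using hlim0.abs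
    refine squeeze_zero (fun N => hg0 N U) (fun N => ?_) hlim1
    rw [hgv]
    refine max_le ?_ (abs_nonneg _)
    have h1 := hcU (y N) _ (hElim N U)
    have h2 : q * ‖y N‖ ≤ q := mul_le_of_le_one_right hq0 (hy1 N)
    have h3 := abs_sub_abs_le_abs_sub ((E N U : Icc (-1 : ℝ) 1) : ℝ) (∑' n, c n * e n (y N))
    linarith
  obtain ⟨ε, hε0, hε⟩ : ∃ ε : ℝ, 0 < ε ∧ q + ε < θ := ⟨(θ - q) / 2, by linarith, by linarith⟩
  obtain ⟨ι, t, w, N, hw0, hw1, hwx⟩ := convex_comb g hg0 hg1 hglim hε0
  set v : Y := ∑ i ∈ t, w i • y (N i) with hv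
  have hvn : ‖v‖ ≤ q + ε := by
    refine hnorm v _ (by linarith) fun n => ?_
    have h1 : e n v = ∑ i ∈ t, w i * e n (y (N i)) := by
      rw [hv, map_sum]
      simp
    rw [h1]
    have hpure : ∀ N, ((E N (pure n) : Icc (-1 : ℝ) 1) : ℝ) = e n (y N) := by
      intro N
      show ((Ultrafilter.extend (F N) (pure n) : Icc (-1 : ℝ) 1) : ℝ) = e n (y N)
      rw [ultrafilter_extend_pure]
    calc |∑ i ∈ t, w i * e n (y (N i))| ≤ ∑ i ∈ t, |w i * e n (y (N i))| :=
          Finset.abs_sum_le_sum_abs _ _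
      _ ≤ ∑ i ∈ t, w i * (q + g (N i) (pure n)) := by
          refine Finset.sum_le_sum fun i hi => ?_
          rw [abs_mul, abs_of_nonneg (hw0 i hi)]
          refine mul_le_mul_of_nonneg_left ?_ (hw0 i hi)
          have h2 : |e n (y (N i))| - q ≤ g (N i) (pure n) := by
            rw [hgv, hpure]
            exact le_max_left _ _
          linarith
      _ = q + ∑ i ∈ t, w i * g (N i) (pure n) := by
          simp only [mul_add, Finset.sum_add_distrib]
          rw [← Finset.sum_mul, hw1, one_mul]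
      _ ≤ q + ε := by linarith [hwx (pure n)]
  have hφv : θ < φ0 v := by
    have h1 : φ0 v = ∑ i ∈ t, w i * φ0 (y (N i)) := by
      rw [hv, map_sum]
      simp
    rw [h1]
    have h2 : θ = ∑ i ∈ t, w i * θ := by rw [← Finset.sum_mul, hw1, one_mul]
    rw [h2]
    refine Finset.sum_lt_sum (fun i hi => mul_le_mul_of_nonneg_left (hyθ (N i)).le (hw0 i hi)) ?_
    -- some weight is positive
    by_contra hno
    push Not at hno
    have : ∑ i ∈ t, w i = 0 := by
      refine Finset.sum_eq_zero fun i hi => ?_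
      have h3 := hno i hi
      by_contra h4
      have h5 : 0 < w i := lt_of_le_of_ne (hw0 i hi) (Ne.symm h4)
      have := mul_lt_mul_of_pos_left (hyθ (N i)) h5
      linarith
    rw [hw1] at this
    exact one_ne_zero this
  have hle : φ0 v ≤ ‖v‖ := by
    have := φ0.le_of_opNorm_le hφ0n.le v
    rw [one_mul] at this
    exact (le_abs_self _).trans this
  linarith

end B57
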