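import Mathlib

/-!
# Fonf's countable boundary (section 0.1-0.4 of the proof of MP_b57e2f_an)

A separable real Banach space all of whose finite dimensional subspaces are polyhedral
(finitely many extreme points of the unit ball) has a countable set of functionals of norm
at most one on which every vector attains its norm.
-/

set_option autoImplicit false

open Set Metric Filter Topology

namespace B57

variable {X : Type} [NormedAddCommGroup X] [NormedSpace ℝ X]

/-- The set where `f` gives the norm. -/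
def cone (f : X →L[ℝ] ℝ) : Set X := {y | ‖y‖ ≤ f y}

lemma isClosed_cone (f : X →L[ℝ] ℝ) : IsClosed (cone f) :=
  isClosed_le continuous_norm f.continuous

lemma convex_cone (f : X →L[ℝ] ℝ) : Convex ℝ (cone f) := by
  intro x hx y hy a b ha hb hab
  simp only [cone, mem_ofPred_eq] at hx hy ⊢
  calc ‖a • x + b • y‖ ≤ ‖a • x‖ + ‖b • y‖ := norm_add_le _ _
    _ = a * ‖x‖ + b * ‖y‖ := by
        rw [norm_smul, norm_smul, Real.norm_of_nonneg ha, Real.norm_of_nonneg hb]
    _ ≤ a * f x + b * f y := by gcongr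
    _ = f (a • x + b • y) := by simp

lemma apply_le_norm {f : X →L[ℝ] ℝ} (hf : ‖f‖ ≤ 1) (y : X) : f y ≤ ‖y‖ := by
  have := f.le_of_opNorm_le hf y
  rw [one_mul] at this
  exact (le_abs_self _).trans this

lemma eq_of_mem_cone {f : X →L[ℝ] ℝ} (hf : ‖f‖ ≤ 1) {y : X} (hy : y ∈ cone f) : f y = ‖y‖ :=
  le_antisymm (apply_le_norm hf y) hy

/-- Lemma A: the face of the ball on which a functional is one. -/
lemma face_aux {E : Type} [NormedAddCommGroup E] [NormedSpace ℝ E] [FiniteDimensional ℝ E]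
    (hV : (Set.extremePoints ℝ (Metric.closedBall (0 : E) 1)).Finite)
    {f g : E →L[ℝ] ℝ} (hf : ‖f‖ ≤ 1)
    (hfg : ∀ v ∈ Set.extremePoints ℝ (Metric.closedBall (0 : E) 1), f v = 1 → g v = 1)
    {y : E} (hy : f y = ‖y‖) : g y = ‖y‖ := by
  classical
  rcases eq_or_ne y 0 with rfl | hy0
  · simp
  set V := Set.extremePoints ℝ (Metric.closedBall (0 : E) 1) with hVdef
  have hhull : convexHull ℝ V = Metric.closedBall (0 : E) 1 := by
    have h1 := closure_convexHull_extremePoints (isCompact_closedBall (0 : E) 1)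
      (convex_closedBall (0 : E) 1)
    rwa [(Set.Finite.isClosed_convexHull ℝ hV).closure_eq] at h1
  have hn : ‖y‖ ≠ 0 := norm_ne_zero_iff.2 hy0
  have hz : (‖y‖⁻¹ • y) ∈ convexHull ℝ V := by
    rw [hhull]
    simp [norm_smul, hn]
  rw [hV.convexHull_eq] at hz
  obtain ⟨w, hw0, hw1, hwz⟩ := hz
  rw [Finset.centerMass_eq_of_sum_1 _ _ hw1] at hwz
  have hle : ∀ v ∈ hV.toFinset, f v ≤ 1 := by
    intro v hv
    have hv' : v ∈ V := by simpa using hv
    have hv1 : v ∈ Metric.closedBall (0 : E) 1 := extremePoints_subset hv'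
    have : ‖v‖ ≤ 1 := by simpa using hv1
    exact (apply_le_norm hf v).trans this
  have hf1 : ∑ v ∈ hV.toFinset, w v * f v = 1 := by
    have : f (‖y‖⁻¹ • y) = 1 := by
      rw [map_smul, hy, smul_eq_mul, inv_mul_cancel₀ hn]
    rw [← hwz, map_sum] at this
    simpa using this
  have hsum0 : ∑ v ∈ hV.toFinset, w v * (1 - f v) = 0 := by
    have : ∑ v ∈ hV.toFinset, w v * (1 - f v)
        = ∑ v ∈ hV.toFinset, w v - ∑ v ∈ hV.toFinset, w v * f v := by
      rw [← Finset.sum_sub_distrib]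
      exact Finset.sum_congr rfl fun v _ => by ring
    rw [this, hw1, hf1, sub_self]
  have hnn : ∀ v ∈ hV.toFinset, 0 ≤ w v * (1 - f v) := by
    intro v hv
    have hv' : v ∈ V := by simpa using hv
    exact mul_nonneg (hw0 v hv') (by linarith [hle v hv])
  have hz0 := (Finset.sum_eq_zero_iff_of_nonneg hnn).1 hsum0
  have hg : ∀ v ∈ hV.toFinset, w v * g v = w v := by
    intro v hv
    have hv' : v ∈ V := by simpa using hv
    rcases mul_eq_zero.1 (hz0 v hv) with h | h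
    · rw [h, zero_mul]
    · rw [hfg v hv' (by linarith), mul_one]
  have hg1 : g (‖y‖⁻¹ • y) = 1 := by
    rw [← hwz, map_sum]
    simp only [id_eq, map_smul, smul_eq_mul]
    rw [Finset.sum_congr rfl hg, hw1]
  rw [map_smul, smul_eq_mul] at hg1
  field_simp at hg1
  exact hg1

/-- 0.1 in a finite dimensional polyhedral space. -/
lemma germ_fd {E : Type} [NormedAddCommGroup E] [NormedSpace ℝ E] [FiniteDimensional ℝ E]
    (hV : (Set.extremePoints ℝ (Metric.closedBall (0 : E) 1)).Finite) (x h : E) :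
    ∃ δ : ℝ, 0 < δ ∧ ∃ a : ℝ, ∀ s : ℝ, 0 ≤ s → s ≤ δ → ‖x + s • h‖ = ‖x‖ + s * a := by
  classical
  set V := Set.extremePoints ℝ (Metric.closedBall (0 : E) 1) with hVdef
  have hex : ∀ n : ℕ, ∃ f : E →L[ℝ] ℝ, ‖f‖ ≤ 1 ∧
      f (x + ((1 : ℝ) / (n + 1)) • h) = ‖x + ((1 : ℝ) / (n + 1)) • h‖ := by
    intro n
    obtain ⟨f, hf1, hf2⟩ := exists_dual_vector'' ℝ (x + ((1 : ℝ) / (n + 1)) • h)
    exact ⟨f, hf1, by simpa using hf2⟩
  choose f hf1 hf2 using hex
  have : Finite V := hV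
  have : Finite (Set V) := inferInstance
  obtain ⟨F, hF⟩ := Finite.exists_infinite_fiber (fun n : ℕ => {v : V | f n (v : E) = 1})
  have hFinf : Set.Infinite {n : ℕ | {v : V | f n (v : E) = 1} = F} := by
    have := hF
    rw [Set.infinite_coe_iff] at this
    exact this
  obtain ⟨m, hm⟩ := hFinf.nonempty
  have key : ∀ n ∈ {n : ℕ | {v : V | f n (v : E) = 1} = F},
      x + ((1 : ℝ) / (n + 1)) • h ∈ cone (f m) := by
    intro n hn
    have hEq : {v : V | f n (v : E) = 1} = {v : V | f m (v : E) = 1} := by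
      rw [hn, hm]
    have : f m (x + ((1 : ℝ) / (n + 1)) • h) = ‖x + ((1 : ℝ) / (n + 1)) • h‖ := by
      refine face_aux hV (hf1 n) ?_ (hf2 n)
      intro v hv hv1
      have : (⟨v, hv⟩ : V) ∈ {v : V | f n (v : E) = 1} := hv1
      rw [hEq] at this
      exact this
    exact this.ge
  have hx : x ∈ cone (f m) := by
    have hfreq : ∃ᶠ n : ℕ in atTop, x + ((1 : ℝ) / (n + 1)) • h ∈ cone (f m) := by
      rw [Nat.frequently_atTop_iff_infinite]
      exact hFinf.mono key
    have hlim : Tendsto (fun n : ℕ => x + ((1 : ℝ) / (n + 1)) • h) atTop (𝓝 x) := by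
      have h1 : Tendsto (fun n : ℕ => x + ((1 : ℝ) / (n + 1)) • h) atTop
          (𝓝 (x + (0 : ℝ) • h)) :=
        tendsto_const_nhds.add (tendsto_one_div_add_atTop_nhds_zero_nat.smul_const h)
      simpa using h1
    exact (isClosed_cone (f m)).mem_of_frequently_of_tendsto hfreq hlim
  have hm' := key m hm
  have hδ : (0 : ℝ) < 1 / (m + 1) := by positivity
  refine ⟨1 / (m + 1), hδ, f m h, ?_⟩
  intro s hs0 hs1
  have hmem : x + s • h ∈ cone (f m) := by
    have hc := convex_cone (f m) hx hm' (a := 1 - s / (1 / (m + 1))) (b := s / (1 / (m + 1)))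
      (by rw [sub_nonneg, div_le_one hδ]; exact hs1) (by positivity) (by ring)
    have heq : (1 - s / ((1 : ℝ) / (m + 1))) • x + (s / ((1 : ℝ) / (m + 1))) •
        (x + ((1 : ℝ) / (m + 1)) • h) = x + s • h := by
      rw [smul_add, smul_smul, div_mul_cancel₀ _ hδ.ne', sub_smul, one_smul]
      abel
    rwa [heq] at hc
  rw [← eq_of_mem_cone (hf1 m) hmem, ← eq_of_mem_cone (hf1 m) hx]
  simp

/-- 0.1. -/
lemma germ
    (hpoly : ∀ E : Submodule ℝ X, FiniteDimensional ℝ E →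
      (Set.extremePoints ℝ (Metric.closedBall (0 : E) 1)).Finite) (x h : X) :
    ∃ δ : ℝ, 0 < δ ∧ ∃ a : ℝ, ∀ s : ℝ, 0 ≤ s → s ≤ δ → ‖x + s • h‖ = ‖x‖ + s * a := by
  set E : Submodule ℝ X := Submodule.span ℝ {x, h} with hE
  have : FiniteDimensional ℝ E := FiniteDimensional.span_of_finite ℝ (by simp)
  have hx : x ∈ E := Submodule.subset_span (by simp)
  have hh : h ∈ E := Submodule.subset_span (by simp)
  obtain ⟨δ, hδ, a, ha⟩ := germ_fd (hpoly E inferInstance) (⟨x, hx⟩ : E) (⟨h, hh⟩ : E)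
  refine ⟨δ, hδ, a, fun s h0 h1 => ?_⟩
  have := ha s h0 h1
  simpa using this

/-- The conclusion of 0.1, as a property of a normed space. -/
def Germ (X : Type) [NormedAddCommGroup X] [NormedSpace ℝ X] : Prop :=
  ∀ x h : X, ∃ δ : ℝ, 0 < δ ∧ ∃ a : ℝ, ∀ s : ℝ, 0 ≤ s → s ≤ δ → ‖x + s • h‖ = ‖x‖ + s * a

/-- Monotonicity of difference quotients, in the form we need. -/
lemma slope_le {x h : X} {δ a : ℝ} (hδ : 0 < δ)
    (ha : ∀ s : ℝ, 0 ≤ s → s ≤ δ → ‖x + s • h‖ = ‖x‖ + s * a) {t : ℝ} (ht : 0 < t) :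
    t * a ≤ ‖x + t • h‖ - ‖x‖ := by
  rcases le_or_gt t δ with htδ | htδ
  · rw [ha t ht.le htδ]; linarith
  · -- `x + δ h` is a convex combination of `x` and `x + t h`
    have h1 := ha δ hδ.le le_rfl
    have heq : x + δ • h = (1 - δ / t) • x + (δ / t) • (x + t • h) := by
      rw [smul_add, smul_smul, div_mul_cancel₀ _ ht.ne', sub_smul, one_smul]
      abel
    have hle : ‖x + δ • h‖ ≤ (1 - δ / t) * ‖x‖ + (δ / t) * ‖x + t • h‖ := by
      rw [heq]
      refine (norm_add_le _ _).trans ?_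
      rw [norm_smul, norm_smul, Real.norm_of_nonneg, Real.norm_of_nonneg]
      · positivity
      · rw [sub_nonneg, div_le_one ht]; exact htδ.le
    rw [h1] at hle
    have : δ * a ≤ (δ / t) * (‖x + t • h‖ - ‖x‖) := by nlinarith
    have h2 : t * (δ * a) ≤ t * ((δ / t) * (‖x + t • h‖ - ‖x‖)) := by gcongr
    have h3 : t * ((δ / t) * (‖x + t • h‖ - ‖x‖)) = δ * (‖x + t • h‖ - ‖x‖) := by
      field_simp
    rw [h3] at h2
    have h4 : δ * (t * a) ≤ δ * (‖x + t • h‖ - ‖x‖) := by linarith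
    exact le_of_mul_le_mul_left h4 hδ

section dir

variable (hG : Germ X) 

/-- The one-sided directional derivative of the norm. -/
noncomputable def dd (hG : Germ X) (x h : X) : ℝ := (hG x h).choose_spec.2.choose

lemma dd_spec (hG : Germ X) (x h : X) : ∃ δ : ℝ, 0 < δ ∧
    ∀ s : ℝ, 0 ≤ s → s ≤ δ → ‖x + s • h‖ = ‖x‖ + s * dd hG x h :=
  ⟨(hG x h).choose, (hG x h).choose_spec.1, (hG x h).choose_spec.2.choose_spec⟩

lemma dd_le (hG : Germ X) (x h : X) {t : ℝ} (ht : 0 < t) :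
    t * dd hG x h ≤ ‖x + t • h‖ - ‖x‖ := by
  obtain ⟨δ, hδ, hs⟩ := dd_spec hG x h
  exact slope_le hδ hs ht

lemma dd_le_norm (hG : Germ X) (x h : X) : dd hG x h ≤ ‖h‖ := by
  have h1 := dd_le hG x h one_pos
  have h2 : ‖x + (1 : ℝ) • h‖ ≤ ‖x‖ + ‖h‖ := by simpa using norm_add_le x h
  linarith

lemma dd_add_le (hG : Germ X) (x h k : X) : dd hG x (h + k) ≤ dd hG x h + dd hG x k := by
  obtain ⟨δ, hδ, hs⟩ := dd_spec hG x h
  obtain ⟨ε, hε, hs'⟩ := dd_spec hG x k
  set t := min δ ε with ht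
  have ht0 : 0 < t := lt_min hδ hε
  have h1 := hs t ht0.le (min_le_left _ _)
  have h2 := hs' t ht0.le (min_le_right _ _)
  have h3 := dd_le hG x (h + k) (t := t / 2) (by positivity)
  have heq : x + (t / 2) • (h + k) = (1 / 2 : ℝ) • (x + t • h) + (1 / 2 : ℝ) • (x + t • k) := by
    module
  have h4 : ‖x + (t / 2) • (h + k)‖ ≤ (1 / 2) * ‖x + t • h‖ + (1 / 2) * ‖x + t • k‖ := by
    rw [heq]
    refine (norm_add_le _ _).trans ?_
    rw [norm_smul, norm_smul, Real.norm_of_nonneg (by norm_num : (0 : ℝ) ≤ 1 / 2)]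
  rw [h1, h2] at h4
  have h5 : (t / 2) * dd hG x (h + k) ≤ (t / 2) * (dd hG x h + dd hG x k) := by nlinarith
  exact le_of_mul_le_mul_left h5 (by positivity)

lemma dd_unique (hG : Germ X) (x h : X) {δ a : ℝ} (hδ : 0 < δ)
    (ha : ∀ s : ℝ, 0 ≤ s → s ≤ δ → ‖x + s • h‖ = ‖x‖ + s * a) : dd hG x h = a := by
  obtain ⟨ε, hε, hs⟩ := dd_spec hG x h
  set t := min δ ε with ht
  have ht0 : 0 < t := lt_min hδ hε
  have h1 := ha t ht0.le (min_le_left _ _)
  have h2 := hs t ht0.le (min_le_right _ _)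
  have h3 : t * dd hG x h = t * a := by linarith
  exact mul_left_cancel₀ ht0.ne' h3

lemma dd_smul (hG : Germ X) (x h : X) {c : ℝ} (hc : 0 < c) :
    dd hG x (c • h) = c * dd hG x h := by
  obtain ⟨ε, hε, hs⟩ := dd_spec hG x h
  refine dd_unique hG x (c • h) (δ := ε / c) (by positivity) ?_
  intro s hs0 hs1
  rw [smul_smul, hs (s * c) (by positivity) (by rwa [le_div_iff₀ hc] at hs1)]
  ring

lemma dd_zero (hG : Germ X) (x : X) : dd hG x 0 = 0 :=
  dd_unique hG x 0 one_pos (by intro s _ _; simp)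

lemma dd_self (hG : Germ X) (x : X) : dd hG x x = ‖x‖ := by
  refine dd_unique hG x x one_pos ?_
  intro s hs _
  have : x + s • x = (1 + s) • x := by module
  rw [this, norm_smul, Real.norm_of_nonneg (by positivity)]
  ring

lemma dd_lip (hG : Germ X) (x h k : X) : dd hG x h ≤ dd hG x k + ‖h - k‖ := by
  have h1 := dd_add_le hG x k (h - k)
  rw [add_sub_cancel] at h1
  linarith [dd_le_norm hG x (h - k)]

/-- 0.2: where the directional derivative is odd on a dense set, the norm is given by a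
functional along each line near `x`. -/
lemma linear_of_odd (hG : Germ X) (x : X) (hodd : ∀ h, dd hG x h + dd hG x (-h) = 0) :
    ∃ f : X →L[ℝ] ℝ, ‖f‖ ≤ 1 ∧ (f x = ‖x‖) ∧
      ∀ h, ∃ δ : ℝ, 0 < δ ∧ ∀ s : ℝ, |s| ≤ δ → ‖x + s • h‖ = ‖x‖ + s * f h := by
  have hadd : ∀ h k, dd hG x (h + k) = dd hG x h + dd hG x k := by
    intro h k
    refine le_antisymm (dd_add_le hG x h k) ?_
    have h1 := dd_add_le hG x (-h) (-k)
    have h2 : -h + -k = -(h + k) := by abel
    rw [h2] at h1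
    linarith [hodd h, hodd k, hodd (h + k)]
  have hneg : ∀ h, dd hG x (-h) = - dd hG x h := fun h => by linarith [hodd h]
  have hsmul : ∀ (c : ℝ) (h : X), dd hG x (c • h) = c * dd hG x h := by
    intro c h
    rcases lt_trichotomy c 0 with hc | hc | hc
    · have : c • h = -((-c) • h) := by module
      rw [this, hneg, dd_smul hG x h (by linarith : 0 < -c)]
      ring
    · rw [hc, zero_smul, dd_zero, zero_mul]
    · exact dd_smul hG x h hc
  let L : X →ₗ[ℝ] ℝ :=
    { toFun := dd hG x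
      map_add' := hadd
      map_smul' := fun c h => by simpa using hsmul c h }
  have hbd : ∀ h, ‖L h‖ ≤ 1 * ‖h‖ := by
    intro h
    rw [one_mul, Real.norm_eq_abs, abs_le]
    constructor
    · have := dd_le_norm hG x (-h)
      rw [hneg, norm_neg] at this
      show -‖h‖ ≤ dd hG x h
      linarith
    · exact dd_le_norm hG x h
  refine ⟨L.mkContinuous 1 hbd, L.mkContinuous_norm_le zero_le_one hbd, dd_self hG x, ?_⟩
  intro h
  obtain ⟨δ, hδ, hs⟩ := dd_spec hG x h
  obtain ⟨ε, hε, hs'⟩ := dd_spec hG x (-h)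
  refine ⟨min δ ε, lt_min hδ hε, ?_⟩
  intro s hs1
  show ‖x + s • h‖ = ‖x‖ + s * dd hG x h
  rcases le_or_gt 0 s with h0 | h0
  · rw [abs_of_nonneg h0] at hs1
    exact hs s h0 (hs1.trans (min_le_left _ _))
  · rw [abs_of_neg h0] at hs1
    have := hs' (-s) (by linarith) (hs1.trans (min_le_right _ _))
    rw [smul_neg, neg_smul, neg_neg, hneg] at this
    rw [this]; ring

end dir

/-- The set of good points (0.2). -/
def good (h : ℕ → X) : Set X :=
  ⋂ km : ℕ × ℕ, {x : X | ∃ δ : ℝ, 0 < δ ∧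
    ‖x + δ • h km.1‖ + ‖x - δ • h km.1‖ - 2 * ‖x‖ < δ * (1 / ((km.2 : ℝ) + 1))}

lemma good_dense [CompleteSpace X] (hG : Germ X) (h : ℕ → X) : Dense (good h) := by
  refine dense_iInter_of_isOpen ?_ ?_
  · rintro ⟨k, m⟩
    have : {x : X | ∃ δ : ℝ, 0 < δ ∧
        ‖x + δ • h k‖ + ‖x - δ • h k‖ - 2 * ‖x‖ < δ * (1 / ((m : ℝ) + 1))}
        = ⋃ δ : {δ : ℝ // 0 < δ}, {x : X |
        ‖x + δ.1 • h k‖ + ‖x - δ.1 • h k‖ - 2 * ‖x‖ < δ.1 * (1 / ((m : ℝ) + 1))} := by
      ext x
      simp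
    show IsOpen {x : X | ∃ δ : ℝ, 0 < δ ∧
        ‖x + δ • h k‖ + ‖x - δ • h k‖ - 2 * ‖x‖ < δ * (1 / ((m : ℝ) + 1))}
    rw [this]
    refine isOpen_iUnion fun δ => ?_
    exact isOpen_lt (by fun_prop) continuous_const
  · rintro ⟨k, m⟩
    rw [Metric.dense_iff]
    intro x r hr
    obtain ⟨δ, hδ, a, ha⟩ := hG x (h k)
    -- choose `s` small
    obtain ⟨s, hs0, hsδ, hsr⟩ : ∃ s : ℝ, 0 < s ∧ s ≤ δ ∧ s * ‖h k‖ < r := by
      refine ⟨min δ (r / (‖h k‖ + 1)) , ?_, min_le_left _ _, ?_⟩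
      · have : 0 < r / (‖h k‖ + 1) := by positivity
        exact lt_min hδ this
      · have h1 : min δ (r / (‖h k‖ + 1)) * ‖h k‖ ≤ (r / (‖h k‖ + 1)) * ‖h k‖ := by
          gcongr
          exact min_le_right _ _
        refine h1.trans_lt ?_
        rw [div_mul_eq_mul_div, div_lt_iff₀ (by positivity)]
        nlinarith [norm_nonneg (h k)]
    refine ⟨x + (s / 2) • h k, ?_, s / 2, by positivity, ?_⟩
    · rw [Metric.mem_ball, dist_eq_norm, add_sub_cancel_left, norm_smul,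
        Real.norm_of_nonneg (by positivity)]
      nlinarith [norm_nonneg (h k)]
    · have e1 : x + (s / 2) • h k + (s / 2) • h k = x + s • h k := by module
      have e2 : x + (s / 2) • h k - (s / 2) • h k = x := by module
      show ‖x + (s / 2) • h k + (s / 2) • h k‖ + ‖x + (s / 2) • h k - (s / 2) • h k‖
        - 2 * ‖x + (s / 2) • h k‖ < s / 2 * (1 / ((m : ℝ) + 1))
      rw [e1, e2, ha s hs0.le hsδ, ha (s / 2) (by positivity) (by linarith)]
      have : 0 < s / 2 * (1 / ((m : ℝ) + 1)) := by positivity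
      linarith

lemma odd_of_good (hG : Germ X) {h : ℕ → X} (hd : DenseRange h) {x : X} (hx : x ∈ good h) :
    ∀ k, dd hG x k + dd hG x (-k) = 0 := by
  have hnonneg : ∀ k, 0 ≤ dd hG x k + dd hG x (-k) := by
    intro k
    have := dd_add_le hG x k (-k)
    rwa [add_neg_cancel, dd_zero] at this
  have hnonpos : ∀ i, dd hG x (h i) + dd hG x (-(h i)) ≤ 0 := by
    intro i
    have hm : ∀ m : ℕ, dd hG x (h i) + dd hG x (-(h i)) ≤ 1 / ((m : ℝ) + 1) := by
      intro m
      have := mem_iInter.1 hx (i, m)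
      obtain ⟨δ, hδ, hlt⟩ := this
      simp only at hlt
      have h1 := dd_le hG x (h i) hδ
      have h2 := dd_le hG x (-(h i)) hδ
      rw [smul_neg, ← sub_eq_add_neg] at h2
      have h3 : δ * (dd hG x (h i) + dd hG x (-(h i))) ≤ δ * (1 / ((m : ℝ) + 1)) := by
        nlinarith
      exact le_of_mul_le_mul_left h3 hδ
    exact ge_of_tendsto' tendsto_one_div_add_atTop_nhds_zero_nat hm
  intro k
  refine le_antisymm ?_ (hnonneg k)
  refine le_of_forall_pos_le_add ?_
  intro ε hε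
  obtain ⟨y, ⟨i, rfl⟩, hi⟩ := Metric.mem_closure_iff.1 (hd k) (ε / 2) (by positivity)
  have hi' : ‖k - h i‖ < ε / 2 := by rwa [dist_eq_norm] at hi
  have h1 := dd_lip hG x k (h i)
  have h2 := dd_lip hG x (-k) (-(h i))
  have h3 : ‖-k - -(h i)‖ = ‖k - h i‖ := by
    rw [← norm_neg]; congr 1; abel
  rw [h3] at h2
  linarith [hnonpos i]

/-- 0.3: a good point is interior to a cone. -/
lemma interior_of_good [CompleteSpace X] (hG : Germ X) {h : ℕ → X} (hd : DenseRange h)
    {x : X} (hx : x ∈ good h) :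
    ∃ f : X →L[ℝ] ℝ, ‖f‖ ≤ 1 ∧ x ∈ interior (cone f) := by
  obtain ⟨f, hf1, hfx, hline⟩ := linear_of_odd hG x (odd_of_good hG hd hx)
  refine ⟨f, hf1, ?_⟩
  set H : ℕ → Set X := fun n => {k | ∀ s : ℝ, |s| ≤ 1 / ((n : ℝ) + 1) →
    ‖x + s • k‖ = ‖x‖ + s * f k} with hH
  have hclosed : ∀ n, IsClosed (H n) := by
    intro n
    have : H n = ⋂ s : {s : ℝ // |s| ≤ 1 / ((n : ℝ) + 1)}, {k | ‖x + s.1 • k‖ = ‖x‖ + s.1 * f k} := by
      ext k
      simp [hH]
    rw [this]
    refine isClosed_iInter fun s => ?_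
    exact isClosed_eq (by fun_prop) (by fun_prop)
  have hcover : ⋃ n, H n = univ := by
    rw [eq_univ_iff_forall]
    intro k
    obtain ⟨δ, hδ, hs⟩ := hline k
    obtain ⟨n, hn⟩ := exists_nat_one_div_lt hδ
    exact mem_iUnion.2 ⟨n, fun s hs1 => hs s (hs1.trans hn.le)⟩
  obtain ⟨n, k0, hk0⟩ := nonempty_interior_of_iUnion_of_closed hclosed hcover
  obtain ⟨r, hr, hball⟩ := Metric.isOpen_iff.1 isOpen_interior k0 hk0
  have hball' : ball k0 r ⊆ H n := hball.trans interior_subset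
  set t : ℝ := 1 / ((n : ℝ) + 1) with ht
  have ht0 : 0 < t := by positivity
  have hcone : ∀ k ∈ H n, ∀ s : ℝ, |s| ≤ t → x + s • k ∈ cone f := by
    intro k hk s hs
    show ‖x + s • k‖ ≤ f (x + s • k)
    rw [hk s hs, map_add, map_smul, hfx, smul_eq_mul]
  rw [mem_interior_iff_mem_nhds, Metric.mem_nhds_iff]
  refine ⟨t * r, by positivity, ?_⟩
  intro y hy
  rw [mem_ball, dist_eq_norm] at hy
  set u : X := t⁻¹ • (y - x) with hu
  have hur : ‖u‖ < r := by
    rw [hu, norm_smul, norm_inv, Real.norm_of_nonneg ht0.le, inv_mul_lt_iff₀ ht0]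
    exact hy
  have m1 : k0 + u ∈ H n := hball' (by simpa [mem_ball, dist_eq_norm] using hur)
  have m2 : k0 - u ∈ H n := hball' (by simpa [mem_ball, dist_eq_norm] using hur)
  have c1 := hcone _ m1 t (by rw [abs_of_pos ht0])
  have c2 := hcone _ m2 (-t) (by rw [abs_neg, abs_of_pos ht0])
  have hc := convex_cone f c1 c2 (a := 1 / 2) (b := 1 / 2) (by norm_num) (by norm_num)
    (by norm_num)
  have heq : (1 / 2 : ℝ) • (x + t • (k0 + u)) + (1 / 2 : ℝ) • (x + (-t) • (k0 - u)) = y := by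
    have hty : t • u = y - x := by
      rw [hu, smul_smul, mul_inv_cancel₀ ht0.ne', one_smul]
    have : (1 / 2 : ℝ) • (x + t • (k0 + u)) + (1 / 2 : ℝ) • (x + (-t) • (k0 - u))
        = x + t • u := by module
    rw [this, hty]
    abel
  rwa [heq] at hc

/-- Functionals of norm at most one whose cone has interior. -/
def fam (X : Type) [NormedAddCommGroup X] [NormedSpace ℝ X] : Set (X →L[ℝ] ℝ) :=
  {f | ‖f‖ ≤ 1 ∧ (interior (cone f)).Nonempty}

lemma fam_countable [TopologicalSpace.SeparableSpace X] : (fam X).Countable := by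
  refine Set.PairwiseDisjoint.countable_of_isOpen (s := fun f => interior (cone f)) ?_
    (fun _ _ => isOpen_interior) (fun f hf => hf.2)
  intro f hf g hg hfg
  rw [Function.onFun, Set.disjoint_left]
  intro y hyf hyg
  apply hfg
  have hnhds : ∀ᶠ z in 𝓝 y, f z = g z := by
    filter_upwards [mem_interior_iff_mem_nhds.1 hyf, mem_interior_iff_mem_nhds.1 hyg]
      with z hz1 hz2
    rw [eq_of_mem_cone hf.1 hz1, eq_of_mem_cone hg.1 hz2]
  ext u
  have hlim : Tendsto (fun s : ℝ => y + s • u) (𝓝 0) (𝓝 y) := by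
    have : Tendsto (fun s : ℝ => y + s • u) (𝓝 0) (𝓝 (y + (0 : ℝ) • u)) :=
      (Continuous.tendsto (by fun_prop) 0)
    simpa using this
  have hev := hlim.eventually hnhds
  obtain ⟨ε, hε, hball⟩ := Metric.eventually_nhds_iff.1 hev
  have h1 := hball (y := ε / 2) (by
    rw [dist_eq_norm, sub_zero, Real.norm_of_nonneg (by positivity)]; linarith)
  have h0 := hnhds.self_of_nhds
  simp only [map_add, map_smul, smul_eq_mul] at h1
  rw [h0] at h1
  have : (ε / 2) * f u = (ε / 2) * g u := by linarith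
  exact mul_left_cancel₀ (by positivity) this

/-- 0.4. -/
lemma exists_fam [CompleteSpace X] [TopologicalSpace.SeparableSpace X] (hG : Germ X) (x : X) :
    ∃ f ∈ fam X, f x = ‖x‖ := by
  set d := TopologicalSpace.denseSeq X with hdd
  have hd : DenseRange d := TopologicalSpace.denseRange_denseSeq X
  set A : ℕ → Set X := fun n => {k | ∀ s : ℝ, 0 ≤ s → s ≤ 1 / ((n : ℝ) + 1) →
    ‖x + s • k‖ = ‖x‖ + s * (((n : ℝ) + 1) * (‖x + (1 / ((n : ℝ) + 1)) • k‖ - ‖x‖))} with hA
  have hclosed : ∀ n, IsClosed (A n) := by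
    intro n
    have : A n = ⋂ s : {s : ℝ // 0 ≤ s ∧ s ≤ 1 / ((n : ℝ) + 1)},
        {k | ‖x + s.1 • k‖ =
          ‖x‖ + s.1 * (((n : ℝ) + 1) * (‖x + (1 / ((n : ℝ) + 1)) • k‖ - ‖x‖))} := by
      ext k
      simp only [hA, mem_ofPred_eq, mem_iInter, Subtype.forall, and_imp]
    rw [this]
    refine isClosed_iInter fun s => ?_
    exact isClosed_eq (by fun_prop) (by fun_prop)
  have hcover : ⋃ n, A n = univ := by
    rw [eq_univ_iff_forall]
    intro k
    obtain ⟨δ, hδ, a, hs⟩ := hG x k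
    obtain ⟨n, hn⟩ := exists_nat_one_div_lt hδ
    refine mem_iUnion.2 ⟨n, fun s hs0 hs1 => ?_⟩
    have hn0 : (0 : ℝ) < (n : ℝ) + 1 := by positivity
    rw [hs s hs0 (hs1.trans hn.le), hs (1 / ((n : ℝ) + 1)) (by positivity) hn.le]
    field_simp
    ring
  obtain ⟨n, k0, hk0⟩ := nonempty_interior_of_iUnion_of_closed hclosed hcover
  set t : ℝ := 1 / ((n : ℝ) + 1) with ht
  have ht0 : 0 < t := by positivity
  -- find a good point
  have hopen : IsOpen ((fun y : X => (2 / t) • (y - x)) ⁻¹' interior (A n)) :=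
    isOpen_interior.preimage (by fun_prop)
  have hne : ((fun y : X => (2 / t) • (y - x)) ⁻¹' interior (A n)).Nonempty := by
    refine ⟨x + (t / 2) • k0, ?_⟩
    show (2 / t) • (x + (t / 2) • k0 - x) ∈ interior (A n)
    rw [add_sub_cancel_left, smul_smul]
    have : 2 / t * (t / 2) = 1 := by field_simp
    rwa [this, one_smul]
  obtain ⟨y, hy1, hy2⟩ := (good_dense hG d).inter_open_nonempty _ hopen hne
  obtain ⟨f, hf1, hyf⟩ := interior_of_good hG hd hy2
  refine ⟨f, ⟨hf1, y, hyf⟩, ?_⟩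
  set k : X := (2 / t) • (y - x) with hk
  have hkA : k ∈ A n := interior_subset hy1
  have hyk : x + (t / 2) • k = y := by
    rw [hk, smul_smul]
    have : t / 2 * (2 / t) = 1 := by field_simp
    rw [this, one_smul]
    abel
  have hlim : Tendsto (fun s : ℝ => x + s • k) (𝓝 (t / 2)) (𝓝 y) := by
    have : Tendsto (fun s : ℝ => x + s • k) (𝓝 (t / 2)) (𝓝 (x + (t / 2) • k)) :=
      (Continuous.tendsto (by fun_prop) (t / 2))
    rwa [hyk] at this
  have hev := hlim.eventually (mem_interior_iff_mem_nhds.1 hyf)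
  obtain ⟨ε, hε, hball⟩ := Metric.eventually_nhds_iff.1 hev
  set s1 : ℝ := t / 2 + min (ε / 2) (t / 2) with hs1
  have hmin0 : 0 < min (ε / 2) (t / 2) := lt_min (by positivity) (by positivity)
  have c1 : x + s1 • k ∈ cone f := hball (by
    rw [dist_eq_norm, hs1, add_sub_cancel_left, Real.norm_of_nonneg hmin0.le]
    exact (min_le_left _ _).trans_lt (by linarith))
  have c0 : x + (t / 2) • k ∈ cone f := by
    rw [hyk]; exact interior_subset hyf
  have e1 := eq_of_mem_cone hf1 c1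
  have e0 := eq_of_mem_cone hf1 c0
  have a1 := hkA s1 (by positivity) (by
    have : min (ε / 2) (t / 2) ≤ t / 2 := min_le_right _ _
    show s1 ≤ t
    linarith)
  have a0 := hkA (t / 2) (by positivity) (by show t / 2 ≤ t; linarith)
  set b : ℝ := ((n : ℝ) + 1) * (‖x + t • k‖ - ‖x‖) with hb
  have e1' : f x + s1 * f k = ‖x‖ + s1 * b := by
    rw [← a1, ← e1]; simp
  have e0' : f x + (t / 2) * f k = ‖x‖ + (t / 2) * b := by
    rw [← a0, ← e0]; simp
  have hdiff : min (ε / 2) (t / 2) * f k = min (ε / 2) (t / 2) * b := by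
    have h1 : s1 = t / 2 + min (ε / 2) (t / 2) := hs1
    rw [h1] at e1'
    nlinarith
  have hfk : f k = b := mul_left_cancel₀ hmin0.ne' hdiff
  rw [hfk] at e0'
  linarith

/-- **FONF** (0.1-0.4): the countable boundary of a separable polyhedral space. -/
theorem fonf [CompleteSpace X] [TopologicalSpace.SeparableSpace X]
    (hpoly : ∀ E : Submodule ℝ X, FiniteDimensional ℝ E →
      (Set.extremePoints ℝ (Metric.closedBall (0 : E) 1)).Finite) :
    ∃ f : ℕ → (X →L[ℝ] ℝ), (∀ i, ‖f i‖ ≤ 1) ∧ ∀ x, ∃ i, f i x = ‖x‖ := by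
  have hG : Germ X := germ hpoly
  obtain ⟨f0, hf0, _⟩ := exists_fam hG 0
  obtain ⟨f, hf⟩ := (fam_countable (X := X)).exists_eq_range ⟨f0, hf0⟩
  refine ⟨f, fun i => ?_, fun x => ?_⟩
  · have : f i ∈ fam X := by rw [hf]; exact mem_range_self i
    exact this.1
  · obtain ⟨g, hg, hgx⟩ := exists_fam hG x
    rw [hf] at hg
    obtain ⟨i, rfl⟩ := hg
    exact ⟨i, hgx⟩

end B57
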